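import Pool.Agent.H35.AN.Defs

/-!
# Project RG (MP_a3214d): definitions for the relative block (wreath products)
-/

set_option autoImplicit false

open NumberField IsDedekindDomain Pool.Agent.H35.AN

namespace Pool.Agent.H41.Rel

/-- The (imprimitive) wreath product of `P` and `H`, the points being numbered by `ε`. -/
def wreath {b n N : ℕ} (ε : Fin b × Fin n ≃ Fin N) (P : Subgroup (Equiv.Perm (Fin n)))
    (H : Subgroup (Equiv.Perm (Fin b))) : Subgroup (Equiv.Perm (Fin N)) where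
  carrier := {τ | ∃ η ∈ H, ∃ γ : Fin b → Equiv.Perm (Fin n), (∀ i, γ i ∈ P) ∧
    ∀ i j, τ (ε (i, j)) = ε (η i, γ i j)}
  mul_mem' := by
    rintro τ τ' ⟨η, hη, γ, hγ, h⟩ ⟨η', hη', γ', hγ', h'⟩
    refine ⟨η * η', mul_mem hη hη', fun i => γ (η' i) * γ' i,
      fun i => mul_mem (hγ _) (hγ' _), fun i j => ?_⟩
    rw [Equiv.Perm.mul_apply, h', h]
    rfl
  one_mem' := ⟨1, one_mem _, fun _ => 1, fun _ => one_mem _, fun i j => rfl⟩
  inv_mem' := by
    rintro τ ⟨η, hη, γ, hγ, h⟩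
    refine ⟨η⁻¹, inv_mem hη, fun i => (γ (η⁻¹ i))⁻¹, fun i => inv_mem (hγ _), fun i j => ?_⟩
    rw [Equiv.Perm.inv_eq_iff_eq, h]
    simp

/-- The Galois group of `M / k`, as a permutation group on the embeddings of `M`, is `G` (for some
numbering of the embeddings). -/
def HasGroup (k Ω M : Type) [Field k] [Field Ω] [Field M] [Algebra k Ω] [Algebra k M] {n : ℕ}
    (G : Subgroup (Equiv.Perm (Fin n))) : Prop :=
  ∃ e : (M →ₐ[k] Ω) ≃ Fin n, ∀ π : Equiv.Perm (Fin n),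
    π ∈ G ↔ ∃ σ : Ω ≃ₐ[k] Ω, ∀ φ : M →ₐ[k] Ω, e (σ.toAlgHom.comp φ) = π (e φ)

/-- The ring homomorphism `r` on the algebraic integers of `Ω` lies over the prime `p` of `F`. -/
def Over {F Ω κ : Type} [Field F] [NumberField F] [Field Ω] [Algebra F Ω] [Field κ]
    (p : HeightOneSpectrum (𝓞 F)) (r : integralClosure ℤ Ω →+* κ) : Prop :=
  ∀ (y : 𝓞 F) (z : integralClosure ℤ Ω), (z : Ω) = algebraMap F Ω (y : F) →
    (r z = 0 ↔ y ∈ p.asIdeal)

/-- `σ` is a Frobenius automorphism at `r`, for residue fields with `q` elements. -/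
def IsFrob {Ω κ : Type} [Field Ω] [Field κ] (r : integralClosure ℤ Ω →+* κ) (σ : Ω → Ω)
    (q : ℕ) : Prop :=
  ∀ y z : integralClosure ℤ Ω, (z : Ω) = σ (y : Ω) → r z = r y ^ q

end Pool.Agent.H41.Rel
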