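import Mathlib
import Pool.Agent.H41.Rel.Defs

/-!
# Project RG (MP_a3214d): the classes of coefficients (REL-7)
-/

set_option autoImplicit false

open NumberField IsDedekindDomain

namespace Pool.Agent.H41.Rel

/-- Distinct finite places give comaximal ideals; `p_j` and `(M₀)` are comaximal if
`M₀ ∉ p_j`. -/
theorem rel7_coprime (F : Type) [Field F] [NumberField F] (J : Type)
    (p : J → HeightOneSpectrum (𝓞 F)) (hp : Function.Injective p)
    {M₀ : ℕ} (h : ∀ j, (M₀ : 𝓞 F) ∉ (p j).asIdeal) :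
    Pairwise (Function.onFun IsCoprime
      (fun o : Option J => o.elim (Ideal.span {(M₀ : 𝓞 F)}) (fun j => (p j).asIdeal))) := by
  have key : ∀ j, IsCoprime (p j).asIdeal (Ideal.span {(M₀ : 𝓞 F)}) := by
    intro j
    obtain ⟨y, i, hi, hyi⟩ := (p j).isMaximal.exists_inv (h j)
    rw [Ideal.isCoprime_iff_exists]
    exact ⟨i, hi, y * (M₀ : 𝓞 F), Ideal.mul_mem_left _ _ (Ideal.mem_span_singleton_self _),
      by rw [add_comm]; exact hyi⟩
  rintro (_ | j) (_ | k) hjk
  · exact absurd rfl hjk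
  · exact (key k).symm
  · exact key j
  · show IsCoprime (p j).asIdeal (p k).asIdeal
    have := (p j).isMaximal
    have := (p k).isMaximal
    refine Ideal.isCoprime_of_isMaximal fun he => hjk ?_
    exact congrArg some (hp (HeightOneSpectrum.ext he))

/-- The classes of coefficients: modulo `M₀` the vector `α` is `α₀`, and modulo each of the
finitely many primes `p_j` (prime to `M₀`) it is a given vector `t_j`. -/
theorem exists_class (F : Type) [Field F] [NumberField F] {s : ℕ} (J : Type) [Finite J]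
    (p : J → HeightOneSpectrum (𝓞 F)) (hp : Function.Injective p) (t : J → Fin s → 𝓞 F)
    {M₀ : ℕ} (hM₀ : 0 < M₀) (h : ∀ j, (M₀ : 𝓞 F) ∉ (p j).asIdeal) (α₀ : Fin s → 𝓞 F) :
    ∃ M : ℕ, 0 < M ∧ M₀ ∣ M ∧ ∃ α : Fin s → 𝓞 F, (∀ i, (M₀ : 𝓞 F) ∣ α i - α₀ i) ∧
      ∀ u : Fin s → 𝓞 F, (∀ i, (M : 𝓞 F) ∣ u i - α i) →
        ∀ j i, u i - t j i ∈ (p j).asIdeal := by
  classical
  cases nonempty_fintype J
  have hcop := rel7_coprime F J p hp h
  have hα := fun i : Fin s => Ideal.exists_forall_sub_mem_ideal hcop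
    (fun o : Option J => o.elim (α₀ i) (fun j => t j i))
  choose α hα using hα
  refine ⟨M₀ * ∏ j, Ideal.absNorm (p j).asIdeal, ?_, Dvd.intro _ rfl, α, ?_, ?_⟩
  · refine Nat.mul_pos hM₀ (Finset.prod_pos fun j _ => ?_)
    exact Nat.pos_of_ne_zero fun h0 => (p j).ne_bot (Ideal.absNorm_eq_zero_iff.mp h0)
  · intro i
    exact Ideal.mem_span_singleton.mp (hα i none)
  · intro u hu j i
    have h1 : α i - t j i ∈ (p j).asIdeal := hα i (some j)
    have h2 : u i - α i ∈ (p j).asIdeal := by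
      have hN : ((Ideal.absNorm (p j).asIdeal : ℕ) : 𝓞 F) ∣
          ((M₀ * ∏ j, Ideal.absNorm (p j).asIdeal : ℕ) : 𝓞 F) :=
        Nat.cast_dvd_cast (dvd_mul_of_dvd_right
          (Finset.dvd_prod_of_mem _ (Finset.mem_univ j)) _)
      exact Ideal.mem_of_dvd _ (hN.trans (hu i)) (Ideal.absNorm_mem _)
    have h3 := (p j).asIdeal.add_mem h2 h1
    rwa [sub_add_sub_cancel] at h3

end Pool.Agent.H41.Rel
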