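import Pool.Agent.H41.Rel.Defs

/-!
# Project RG (MP_a3214d), relative block, row 6: conjugate places and their primes of degree one
-/

set_option autoImplicit false

open NumberField IsDedekindDomain Polynomial

namespace Pool.Agent.H41.Rel

/-- A ring endomorphism of `Ω` preserves the algebraic integers. -/
theorem rel6_mem {Ω : Type} [Field Ω] (s : Ω →+* Ω) (y : integralClosure ℤ Ω) :
    s (y : Ω) ∈ integralClosure ℤ Ω := by
  have h : IsIntegral ℤ (y : Ω) := y.2
  exact h.map s.toIntAlgHom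

/-- The restriction of a ring endomorphism of `Ω` to the algebraic integers. -/
noncomputable def rel6_res {Ω : Type} [Field Ω] (s : Ω →+* Ω) :
    integralClosure ℤ Ω →+* integralClosure ℤ Ω :=
  RingHom.codRestrict (s.comp (integralClosure ℤ Ω).subtype)
    (integralClosure ℤ Ω) (fun y => rel6_mem s y)

theorem rel6_res_coe {Ω : Type} [Field Ω] (s : Ω →+* Ω) (y : integralClosure ℤ Ω) :
    (rel6_res s y : Ω) = s (y : Ω) := rfl

/-- The inclusion of the integers of `F` in the algebraic integers of `Ω`. -/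
theorem rel6_mem_F {F Ω : Type} [Field F] [NumberField F] [Field Ω] [Algebra F Ω] (y : 𝓞 F) :
    algebraMap F Ω (y : F) ∈ integralClosure ℤ Ω := by
  have h : IsIntegral ℤ (y : F) := y.2
  exact h.map (algebraMap F Ω).toIntAlgHom

/-- The inclusion of the integers of `F` in the algebraic integers of `Ω`. -/
noncomputable def rel6_inc (F Ω : Type) [Field F] [NumberField F] [Field Ω] [Algebra F Ω] :
    𝓞 F →+* integralClosure ℤ Ω :=
  RingHom.codRestrict ((algebraMap F Ω).comp (algebraMap (𝓞 F) F))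
    (integralClosure ℤ Ω) (fun y => rel6_mem_F y)

theorem rel6_inc_coe (F Ω : Type) [Field F] [NumberField F] [Field Ω] [Algebra F Ω] (y : 𝓞 F) :
    (rel6_inc F Ω y : Ω) = algebraMap F Ω (y : F) := rfl

section

variable {k F Ω : Type} [Field k] [NumberField k] [Field F] [NumberField F] [Field Ω]
  [Algebra k F] [Algebra k Ω] [Algebra F Ω] [IsScalarTower k F Ω] [IsAlgClosure F Ω]

/-- the conjugate of a place -/
theorem exists_conj (s : Ω ≃ₐ[k] Ω) {κ : Type} [Field κ] (r : integralClosure ℤ Ω →+* κ) :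
    ∃ r' : integralClosure ℤ Ω →+* κ, (Function.Surjective r → Function.Surjective r') ∧
      ∀ y z : integralClosure ℤ Ω, (z : Ω) = s (y : Ω) → r' y = r z := by
  refine ⟨r.comp (rel6_res (s : Ω →+* Ω)), fun hr => ?_, fun y z h => ?_⟩
  · intro x
    obtain ⟨z, hz⟩ := hr x
    refine ⟨rel6_res (s.symm : Ω →+* Ω) z, ?_⟩
    rw [RingHom.comp_apply, ← hz]
    congr 1
    apply Subtype.ext
    rw [rel6_res_coe, rel6_res_coe]
    exact s.apply_symm_apply z
  rw [RingHom.comp_apply]
  congr 1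
  apply Subtype.ext
  rw [rel6_res_coe, h]
  rfl

/-- the conjugate of a Frobenius automorphism -/
theorem exists_conj_frob (s σ : Ω ≃ₐ[k] Ω) {κ : Type} [Field κ] (q : ℕ)
    (r r' : integralClosure ℤ Ω →+* κ) (hσ : IsFrob r σ q)
    (hr : ∀ y z : integralClosure ℤ Ω, (z : Ω) = s (y : Ω) → r' y = r z)
    (hfix : ∀ x : F, σ (s (algebraMap F Ω x)) = s (algebraMap F Ω x)) :
    ∃ τ : Ω ≃ₐ[F] Ω, (∀ y, σ (s y) = s (τ y)) ∧ IsFrob r' τ q := by
  have hc : ∀ x : F, ((s.trans σ).trans s.symm).toRingEquiv (algebraMap F Ω x)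
      = algebraMap F Ω x := by
    intro x
    change s.symm (σ (s (algebraMap F Ω x))) = algebraMap F Ω x
    rw [hfix, AlgEquiv.symm_apply_apply]
  have h1 : ∀ y, σ (s y) = s ((AlgEquiv.ofRingEquiv hc : Ω ≃ₐ[F] Ω) y) := by
    intro y
    change σ (s y) = s (s.symm (σ (s y)))
    rw [AlgEquiv.apply_symm_apply]
  refine ⟨AlgEquiv.ofRingEquiv hc, h1, ?_⟩
  intro y z hz
  have e1 := hr y (rel6_res (s : Ω →+* Ω) y) rfl
  have e2 := hr z (rel6_res (s : Ω →+* Ω) z) rfl
  rw [e1, e2]
  apply hσ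
  rw [rel6_res_coe, rel6_res_coe, hz]
  exact (h1 y).symm

/-- If the residue ring of a prime has `q` elements then every integer is congruent to an
ordinary integer. -/
theorem rel6_exists_nat (q : ℕ) (hq : q.Prime) (p : HeightOneSpectrum (𝓞 F))
    (hN : Ideal.absNorm p.asIdeal = q) (y : 𝓞 F) : ∃ n : ℕ, y - (n : 𝓞 F) ∈ p.asIdeal := by
  have : Fact q.Prime := ⟨hq⟩
  have := p.isPrime
  have hcard : Nat.card (𝓞 F ⧸ p.asIdeal) = q := by
    rw [← hN, Ideal.absNorm_apply, Submodule.cardQuot_apply]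
  have : Finite (𝓞 F ⧸ p.asIdeal) := Nat.finite_of_card_ne_zero (by
    rw [hcard]; exact hq.pos.ne')
  have hqmem : (q : 𝓞 F) ∈ p.asIdeal := by
    have := Ideal.absNorm_mem p.asIdeal
    rwa [hN] at this
  have hq0 : ((q : ℕ) : 𝓞 F ⧸ p.asIdeal) = 0 := by
    have h := Ideal.Quotient.eq_zero_iff_mem.mpr hqmem
    rwa [map_natCast] at h
  have : CharP (𝓞 F ⧸ p.asIdeal) q := by
    have := CharP.ringChar_of_prime_eq_zero hq hq0
    rw [← this]
    infer_instance
  have hinj := ZMod.castHom_injective (n := q) (𝓞 F ⧸ p.asIdeal)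
  have hbij : Function.Bijective (ZMod.castHom (dvd_refl q) (𝓞 F ⧸ p.asIdeal)) := by
    rw [Nat.bijective_iff_injective_and_card]
    refine ⟨hinj, ?_⟩
    rw [hcard, Nat.card_zmod]
  obtain ⟨x, hx⟩ := hbij.2 (Ideal.Quotient.mk p.asIdeal y)
  refine ⟨x.val, ?_⟩
  rw [← Ideal.Quotient.eq, ← hx, map_natCast]
  conv_lhs => rw [← ZMod.natCast_zmod_val x]
  rw [map_natCast]

theorem rel6_value {κ : Type} [Field κ] (r : integralClosure ℤ Ω →+* κ)
    (p : HeightOneSpectrum (𝓞 F)) (hp : Over p r) (y : 𝓞 F) (z : integralClosure ℤ Ω)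
    (hz : (z : Ω) = algebraMap F Ω (y : F)) (n : ℕ) (hn : y - (n : 𝓞 F) ∈ p.asIdeal) :
    r z = (n : κ) := by
  have h : r (z - (n : integralClosure ℤ Ω)) = 0 := by
    refine (hp (y - (n : 𝓞 F)) (z - (n : integralClosure ℤ Ω)) ?_).mpr hn
    have e1 : ((z - (n : integralClosure ℤ Ω) : integralClosure ℤ Ω) : Ω) = (z : Ω) - (n : Ω) :=
      rfl
    have e2 : ((y - (n : 𝓞 F) : 𝓞 F) : F) = (y : F) - (n : F) := rfl
    rw [e1, e2, hz, map_sub, map_natCast]
  rw [map_sub, map_natCast, sub_eq_zero] at h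
  exact h

/-- different values give different primes -/
theorem prime_ne {κ : Type} [Field κ] (q : ℕ) (hq : q.Prime) [CharP κ q]
    (r r' : integralClosure ℤ Ω →+* κ) (p p' : HeightOneSpectrum (𝓞 F)) (hp : Over p r)
    (hp' : Over p' r') (hN : Ideal.absNorm p.asIdeal = q) (hN' : Ideal.absNorm p'.asIdeal = q)
    (y : 𝓞 F) (z z' : integralClosure ℤ Ω) (hz : (z : Ω) = algebraMap F Ω (y : F))
    (hz' : (z' : Ω) = algebraMap F Ω (y : F)) (h : r z ≠ r' z') : p ≠ p' := by
  rintro rfl
  obtain ⟨n, hn⟩ := rel6_exists_nat q hq p hN y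
  exact h ((rel6_value r p hp y z hz n hn).trans (rel6_value r' p hp' y z' hz' n hn).symm)

/-- the prime of `F` below a place with values in the prime field -/
theorem exists_prime {κ : Type} [Field κ] (q : ℕ) (hq : q.Prime) [CharP κ q]
    (r : integralClosure ℤ Ω →+* κ) (τ : Ω ≃ₐ[F] Ω) (hτ : IsFrob r τ q) :
    ∃ p : HeightOneSpectrum (𝓞 F), Over p r ∧ Ideal.absNorm p.asIdeal = q := by
  have : Fact q.Prime := ⟨hq⟩
  set g : 𝓞 F →+* κ := r.comp (rel6_inc F Ω) with hg
  have hgy : ∀ y : 𝓞 F, g y ^ q = g y := by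
    intro y
    have := hτ (rel6_inc F Ω y) (rel6_inc F Ω y) (by
      rw [rel6_inc_coe, AlgEquiv.commutes])
    exact this.symm
  have hprime : (RingHom.ker g).IsPrime := RingHom.ker_isPrime g
  have hqmem : (q : 𝓞 F) ∈ RingHom.ker g := by
    rw [RingHom.mem_ker, map_natCast, CharP.cast_eq_zero]
  have hbot : RingHom.ker g ≠ ⊥ := by
    intro h
    rw [h, Ideal.mem_bot] at hqmem
    exact hq.pos.ne' (by exact_mod_cast hqmem)
  refine ⟨⟨RingHom.ker g, hprime, hbot⟩, ?_, ?_⟩
  · intro y z hz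
    change _ ↔ y ∈ RingHom.ker g
    rw [RingHom.mem_ker]
    have : z = rel6_inc F Ω y := Subtype.ext hz
    rw [this]
    rfl
  · change Ideal.absNorm (RingHom.ker g) = q
    rw [Ideal.absNorm_apply, Submodule.cardQuot_apply]
    have : Finite (𝓞 F ⧸ RingHom.ker g) := Ideal.finiteQuotientOfFreeOfNeBot _ hbot
    have hinj : Function.Injective (RingHom.kerLift g) := RingHom.kerLift_injective g
    have hchar : CharP (𝓞 F ⧸ RingHom.ker g) q := by
      refine ⟨fun m => ?_⟩
      rw [← CharP.cast_eq_zero_iff κ q m, ← map_natCast (RingHom.kerLift g) m,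
        map_eq_zero_iff _ hinj]
    apply le_antisymm
    · classical
      set S : Set κ := {x | x ^ q = x} with hS
      have hsub : S ⊆ ((X ^ q - X : κ[X]).roots.toFinset : Set κ) := by
        intro x hx
        have h0 : (X ^ q - X : κ[X]) ≠ 0 := FiniteField.X_pow_card_sub_X_ne_zero κ hq.one_lt
        simp only [Finset.mem_coe, Multiset.mem_toFinset, mem_roots h0, IsRoot.def, eval_sub,
          eval_pow, eval_X]
        exact sub_eq_zero.mpr hx
      have hfin : S.Finite := Set.Finite.subset (Finset.finite_toSet _) hsub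
      have hle : S.ncard ≤ q := by
        refine (Set.ncard_le_ncard hsub (Finset.finite_toSet _)).trans ?_
        rw [Set.ncard_coe_finset]
        refine (Multiset.toFinset_card_le _).trans ?_
        refine (card_roots' _).trans ?_
        rw [FiniteField.X_pow_card_sub_X_natDegree_eq κ hq.one_lt]
      refine le_trans ?_ hle
      rw [← Nat.card_coe_set_eq]
      have : Finite S := hfin
      refine Nat.card_le_card_of_injective
        (fun x : 𝓞 F ⧸ RingHom.ker g => (⟨RingHom.kerLift g x, ?_⟩ : S)) ?_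
      · obtain ⟨y, rfl⟩ := Ideal.Quotient.mk_surjective x
        exact hgy y
      · intro x x' h
        exact hinj (Subtype.ext_iff.mp h)
    · have h := Nat.card_le_card_of_injective _
        (ZMod.castHom_injective (n := q) (𝓞 F ⧸ RingHom.ker g))
      rwa [Nat.card_zmod] at h

end

end Pool.Agent.H41.Rel
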