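import Mathlib

set_option autoImplicit false

/-!
# REL-1: a subgroup of a finite group which meets all conjugacy classes is everything

The pairs (left coset of `U`, non-trivial element of `U`) map onto the non-trivial elements of
`G`, so `|G| - 1 ≤ [G : U] (|U| - 1) = |G| - [G : U]`.
-/

namespace Pool.Agent.H41.Rel

theorem rel1_card_eq {α : Type*} [Finite α] (a : α) :
    Nat.card α = Nat.card {b : α // b ≠ a} + 1 := by
  classical
  rw [← Nat.card_congr (Equiv.optionSubtypeNe a), Finite.card_option]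

theorem rel1_exists {G : Type*} [Group G] (U : Subgroup G)
    (h : ∀ g : G, ∃ a : G, a * g * a⁻¹ ∈ U) (g : G) (hg : g ≠ 1) :
    ∃ (x : G ⧸ U) (u : U), u ≠ 1 ∧ x.out * (u : G) * x.out⁻¹ = g := by
  obtain ⟨a, ha⟩ := h g
  have hmem : (((a⁻¹ : G) : G ⧸ U).out)⁻¹ * a⁻¹ ∈ U := by
    rw [← QuotientGroup.eq]
    exact QuotientGroup.out_eq' _
  set b : G := ((a⁻¹ : G) : G ⧸ U).out with hb
  have hu : (b⁻¹ * a⁻¹) * (a * g * a⁻¹) * (b⁻¹ * a⁻¹)⁻¹ ∈ U :=
    U.mul_mem (U.mul_mem hmem ha) (U.inv_mem hmem)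
  have he : b * ((b⁻¹ * a⁻¹) * (a * g * a⁻¹) * (b⁻¹ * a⁻¹)⁻¹) * b⁻¹ = g := by
    group
  refine ⟨((a⁻¹ : G) : G ⧸ U), ⟨_, hu⟩, ?_, he⟩
  intro h1
  apply hg
  have h2 : (b⁻¹ * a⁻¹) * (a * g * a⁻¹) * (b⁻¹ * a⁻¹)⁻¹ = 1 := congrArg Subtype.val h1
  rw [← he, h2]
  group

theorem jordan {G : Type*} [Group G] [Finite G] (U : Subgroup G)
    (h : ∀ g : G, ∃ a : G, a * g * a⁻¹ ∈ U) : U = ⊤ := by
  classical
  let f : (G ⧸ U) × {u : U // u ≠ 1} → {g : G // g ≠ 1} := fun p =>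
    ⟨p.1.out * ((p.2.1 : U) : G) * p.1.out⁻¹, by
      intro h1
      apply p.2.2
      have h2 : ((p.2.1 : U) : G) = 1 := by
        have h3 : p.1.out * ((p.2.1 : U) : G) = p.1.out * 1 := by
          rw [mul_one]
          exact mul_inv_eq_one.1 h1
        exact mul_left_cancel h3
      exact Subtype.ext h2⟩
  have hf : Function.Surjective f := by
    rintro ⟨g, hg⟩
    obtain ⟨x, u, hu, hx⟩ := rel1_exists U h g hg
    exact ⟨(x, ⟨u, hu⟩), Subtype.ext hx⟩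
  have h1 : Nat.card {g : G // g ≠ 1} ≤ Nat.card ((G ⧸ U) × {u : U // u ≠ 1}) :=
    Nat.card_le_card_of_surjective f hf
  rw [Nat.card_prod] at h1
  have h2 : Nat.card U * U.index = Nat.card G := Subgroup.card_mul_index U
  have h3 : U.index = Nat.card (G ⧸ U) := rfl
  rw [← h3] at h1
  have h4 : Nat.card U = Nat.card {u : U // u ≠ 1} + 1 := rel1_card_eq (1 : U)
  have h5 : Nat.card G = Nat.card {g : G // g ≠ 1} + 1 := rel1_card_eq (1 : G)
  have h6 : U.index ≠ 0 := Subgroup.FiniteIndex.index_ne_zero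
  rw [h4, h5, add_mul, one_mul, mul_comm] at h2
  rw [← Subgroup.index_eq_one]
  omega

end Pool.Agent.H41.Rel
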