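import Pool.Agent.H41.Rel.Defs

/-!
# Project RG (MP_a3214d), relative block, row REL-4: Frobenius automorphisms exist over `ℚ`
-/

set_option autoImplicit false

open NumberField IsDedekindDomain Polynomial Pool.Agent.H35.AN

namespace Pool.Agent.H41.Rel

/-- In an integral `ℤ`-algebra the map `x ↦ x ^ q` is an automorphism of every residue ring
of characteristic `q`. -/
theorem rel4_frobEquiv (B : Type*) [CommRing B] [Algebra.IsIntegral ℤ B] (Q : Ideal B)
    [Q.IsPrime] (q : ℕ) (hq : q.Prime) (hQ : (q : B) ∈ Q) :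
    ∃ e : (B ⧸ Q) ≃ₐ[ℤ ⧸ Q.under ℤ] (B ⧸ Q), ∀ x, e x = x ^ q := by
  have : Fact q.Prime := ⟨hq⟩
  have hPmem : (q : ℤ) ∈ Q.under ℤ := by
    rw [Ideal.under_def, Ideal.mem_comap]
    simpa using hQ
  have hPmax : (Q.under ℤ).IsMaximal := by
    have h1 : (Ideal.span {(q : ℤ)}).IsMaximal :=
      PrincipalIdealRing.isMaximal_of_irreducible (Nat.prime_iff_prime_int.mp hq).irreducible
    have h2 : Ideal.span {(q : ℤ)} ≤ Q.under ℤ := by
      rw [Ideal.span_le, Set.singleton_subset_iff]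
      exact hPmem
    rw [← h1.eq_of_le (Ideal.IsPrime.ne_top inferInstance) h2]
    exact h1
  have : Q.IsMaximal := Ideal.isMaximal_of_isIntegral_of_isMaximal_comap (R := ℤ) Q hPmax
  let : Field (B ⧸ Q) := Ideal.Quotient.field Q
  have : CharP (B ⧸ Q) q := by
    refine (CharP.charP_iff_prime_eq_zero hq).mpr ?_
    rw [← map_natCast (Ideal.Quotient.mk Q) q, Ideal.Quotient.eq_zero_iff_mem]
    exact hQ
  let : Algebra (ZMod q) (B ⧸ Q) := ZMod.algebra _ q
  have : Algebra.IsAlgebraic (ZMod q) (B ⧸ Q) := by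
    refine ⟨fun x => ?_⟩
    have h3 : IsIntegral ℤ x := by
      obtain ⟨b, rfl⟩ := Ideal.Quotient.mk_surjective x
      exact (Algebra.IsIntegral.isIntegral (R := ℤ) b).map (Ideal.Quotient.mkₐ ℤ Q)
    exact (IsIntegral.tower_top (A := ZMod q) h3).isAlgebraic
  have : PerfectField (B ⧸ Q) := Algebra.IsAlgebraic.perfectField (ZMod q)
  have : PerfectRing (B ⧸ Q) q := PerfectField.toPerfectRing q
  refine ⟨AlgEquiv.ofRingEquiv (f := frobeniusEquiv (B ⧸ Q) q) ?_, fun x => ?_⟩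
  · intro a
    obtain ⟨n, rfl⟩ := Ideal.Quotient.mk_surjective a
    have h4 : algebraMap (ℤ ⧸ Q.under ℤ) (B ⧸ Q) (Ideal.Quotient.mk (Q.under ℤ) n) =
        ((n : ℤ) : B ⧸ Q) := by
      simp
    rw [h4, map_intCast]
  · rfl

/-- the Galois group of an algebraic closure of `ℚ` has the invariants `ℤ` in the ring of
algebraic integers -/
theorem exists_frob (Ω : Type) [Field Ω] [CharZero Ω] [IsAlgClosure ℚ Ω] (q : ℕ)
    (hq : q.Prime) (κ : Type) [Field κ] [CharP κ q] (r : integralClosure ℤ Ω →+* κ) :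
    ∃ σ : Ω ≃ₐ[ℚ] Ω, IsFrob r σ q := by
  have : IsGalois ℚ Ω := IsAlgClosure.isGalois ℚ Ω
  have : Algebra.IsAlgebraic ℚ Ω := IsAlgClosure.isAlgebraic
  let : TopologicalSpace (integralClosure ℤ Ω) := ⊥
  have : DiscreteTopology (integralClosure ℤ Ω) := ⟨rfl⟩
  have : ContinuousSMul (Ω ≃ₐ[ℚ] Ω) (integralClosure ℤ Ω) := by
    rw [continuousSMul_iff_stabilizer_isOpen]
    intro x
    have h1 : (MulAction.stabilizer (Ω ≃ₐ[ℚ] Ω) x : Set (Ω ≃ₐ[ℚ] Ω)) =
        (MulAction.stabilizer (Ω ≃ₐ[ℚ] Ω) (x : Ω) : Set (Ω ≃ₐ[ℚ] Ω)) := by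
      ext g
      simp only [SetLike.mem_coe, MulAction.mem_stabilizer_iff]
      rw [← Subtype.coe_inj, integralClosure.coe_smul]
    rw [h1]
    exact stabilizer_isOpen_of_isIntegral (x : Ω)
  have : Algebra.IsInvariant ℤ (integralClosure ℤ Ω) (Ω ≃ₐ[ℚ] Ω) := by
    refine ⟨fun b hb => ?_⟩
    have h1 : (b : Ω) ∈ Set.range (algebraMap ℚ Ω) := by
      rw [InfiniteGalois.mem_range_algebraMap_iff_fixed]
      intro g
      exact congrArg Subtype.val (hb g)
    obtain ⟨x, hx⟩ := h1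
    have h2 : IsIntegral ℤ x := by
      rw [← isIntegral_algebraMap_iff (FaithfulSMul.algebraMap_injective ℚ Ω), hx]
      exact b.2
    obtain ⟨n, hn⟩ := IsIntegrallyClosed.isIntegral_iff.mp h2
    refine ⟨n, Subtype.ext ?_⟩
    rw [← hx, ← hn]
    simp
  have : (RingHom.ker r).IsPrime := RingHom.ker_isPrime r
  have : Algebra.IsIntegral ℤ (integralClosure ℤ Ω) := inferInstance
  have hmem : (q : integralClosure ℤ Ω) ∈ RingHom.ker r := by
    rw [RingHom.mem_ker, map_natCast, CharP.cast_eq_zero]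
  obtain ⟨e, he⟩ := rel4_frobEquiv (integralClosure ℤ Ω) (RingHom.ker r) q hq hmem
  obtain ⟨⟨σ, hσ⟩, hσe⟩ := Ideal.Quotient.stabilizerHom_surjective_of_profinite
    (G := Ω ≃ₐ[ℚ] Ω) ((RingHom.ker r).under ℤ) (RingHom.ker r) e
  refine ⟨σ, fun y z hz => ?_⟩
  have h5 : z = σ • y := Subtype.ext hz
  have h6 := DFunLike.congr_fun hσe (Ideal.Quotient.mk (RingHom.ker r) y)
  rw [he, Ideal.Quotient.stabilizerHom_apply, ← map_pow, Ideal.Quotient.eq] at h6
  have h7 : r (σ • y - y ^ q) = 0 := h6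
  rw [h5, ← sub_eq_zero, ← map_pow, ← map_sub]
  exact h7

end Pool.Agent.H41.Rel
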