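import Pool.Agent.H41.Rel.Defs

/-!
# REL-3: a ring homomorphism of the algebraic integers with a prescribed value
-/

set_option autoImplicit false
set_option maxHeartbeats 400000

open NumberField IsDedekindDomain Polynomial Pool.Agent.H35.AN

namespace Pool.Agent.H41.Rel

/-- A prime of an integral extension over a maximal ideal, in terms of ring homomorphisms. -/
theorem rel3_over {A O : Type} [CommRing A] [CommRing O] (f : A →+* O) (hf : f.IsIntegral)
    (P : Ideal A) (hP : P.IsMaximal) (hker : RingHom.ker f ≤ P) :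
    ∃ Q : Ideal O, Q.IsMaximal ∧ Q.comap f = P := by
  letI : Algebra A O := f.toAlgebra
  haveI : Algebra.IsIntegral A O := ⟨hf⟩
  exact Ideal.exists_ideal_over_maximal_of_isIntegral P hker

theorem exists_place (Ω : Type) [Field Ω] [CharZero Ω] (β : integralClosure ℤ Ω) (q : ℕ)
    (hq : q.Prime) (t : ℤ) (ht : (q : ℤ) ∣ (minpoly ℤ (β : Ω)).eval t) :
    ∃ (κ : Type) (_ : Field κ) (r : integralClosure ℤ Ω →+* κ),
      CharP κ q ∧ Function.Surjective r ∧ r β = (t : κ) := by
  classical
  haveI : Fact q.Prime := ⟨hq⟩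
  -- the evaluation at `t` modulo `q`
  let ψ : ℤ[X] →+* ZMod q := (Int.castRingHom (ZMod q)).comp (Polynomial.evalRingHom t)
  have hψ : Function.Surjective ψ := by
    intro z
    obtain ⟨n, rfl⟩ := ZMod.intCast_surjective z
    exact ⟨Polynomial.C n, by simp [ψ]⟩
  have hmax : (RingHom.ker ψ).IsMaximal := RingHom.ker_isMaximal_of_surjective ψ hψ
  -- the evaluation at `β`
  let φ : ℤ[X] →+* integralClosure ℤ Ω := (Polynomial.aeval β : ℤ[X] →ₐ[ℤ] _).toRingHom
  have hφint : φ.IsIntegral := by
    intro y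
    have h1 : IsIntegral ℤ y := by
      have h2 := y.2
      rw [mem_integralClosure_iff] at h2
      exact (isIntegral_algHom_iff (integralClosure ℤ Ω).val Subtype.val_injective).1 h2
    obtain ⟨p, hp, hpy⟩ := h1
    refine ⟨p.map Polynomial.C, hp.map _, ?_⟩
    rw [Polynomial.eval₂_map]
    have h3 : φ.comp Polynomial.C = algebraMap ℤ (integralClosure ℤ Ω) := RingHom.ext_int _ _
    rw [h3]
    exact hpy
  have hker : RingHom.ker φ ≤ RingHom.ker ψ := by
    intro p hp
    rw [RingHom.mem_ker] at hp ⊢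
    have h1 : Polynomial.aeval (β : Ω) p = 0 := by
      have h2 : Polynomial.aeval β p = 0 := hp
      have h3 := Polynomial.aeval_algHom_apply (integralClosure ℤ Ω).val β p
      rw [h2, map_zero] at h3
      exact h3
    have hint : IsIntegral ℤ (β : Ω) := β.2
    obtain ⟨s, rfl⟩ := (minpoly.isIntegrallyClosed_dvd hint) h1
    obtain ⟨c, hc⟩ := ht
    simp only [ψ, RingHom.comp_apply, Polynomial.coe_evalRingHom, Polynomial.eval_mul, hc]
    simp
  obtain ⟨Q, hQ, hQP⟩ := rel3_over φ hφint (RingHom.ker ψ) hmax hker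
  letI : Field (integralClosure ℤ Ω ⧸ Q) := Ideal.Quotient.field Q
  refine ⟨integralClosure ℤ Ω ⧸ Q, inferInstance, Ideal.Quotient.mk Q, ?_,
    Ideal.Quotient.mk_surjective, ?_⟩
  · rw [CharP.charP_iff_prime_eq_zero hq]
    have h1 : (Polynomial.C (q : ℤ)) ∈ Q.comap φ := by
      rw [hQP, RingHom.mem_ker]
      simp [ψ]
    rw [Ideal.mem_comap] at h1
    have h2 : φ (Polynomial.C (q : ℤ)) = (q : integralClosure ℤ Ω) := by
      simp [φ]
    rw [h2] at h1
    have h3 := Ideal.Quotient.eq_zero_iff_mem.2 h1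
    rw [map_natCast] at h3
    exact h3
  · have h1 : (Polynomial.X - Polynomial.C t) ∈ Q.comap φ := by
      rw [hQP, RingHom.mem_ker]
      simp [ψ]
    rw [Ideal.mem_comap] at h1
    have h2 : φ (Polynomial.X - Polynomial.C t) = β - (t : integralClosure ℤ Ω) := by
      simp [φ]
    rw [h2] at h1
    have h3 := (Ideal.Quotient.mk_eq_mk_iff_sub_mem _ _).2 h1
    rw [h3, map_intCast]

end Pool.Agent.H41.Rel
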