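import Mathlib

/-!
# Project RG (MP_a3214d), REL-2: infinitely many primes divide values of an integer polynomial
-/

set_option autoImplicit false

open Polynomial

namespace Pool.Agent.H41.Rel

/-- A non-constant integer polynomial takes each value only finitely often. -/
theorem rel2_finite (f : ℤ[X]) (hf : 0 < f.natDegree) (c : ℤ) :
    {t : ℤ | f.eval t = c}.Finite := by
  have h0 : f - C c ≠ 0 := by
    intro h
    have h1 : f = C c := sub_eq_zero.mp h
    rw [h1, natDegree_C] at hf
    exact lt_irrefl _ hf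
  refine ((f - C c).roots.toFinset.finite_toSet).subset ?_
  intro t ht
  have ht' : f.eval t = c := ht
  simp only [Finset.mem_coe, Multiset.mem_toFinset]
  rw [mem_roots h0, IsRoot.def, eval_sub, eval_C, ht', sub_self]

theorem exists_prime_root (f : ℤ[X]) (hf : 0 < f.natDegree) (D : ℤ) (hD : D ≠ 0) (X : ℕ) :
    ∃ q : ℕ, q.Prime ∧ X < q ∧ ¬ (q : ℤ) ∣ D ∧ ∃ t : ℤ, (q : ℤ) ∣ f.eval t := by
  by_cases ha : f.eval 0 = 0
  · obtain ⟨q, hq, hqp⟩ := Nat.exists_infinite_primes (X + D.natAbs + 1)
    refine ⟨q, hqp, by omega, ?_, 0, by rw [ha]; exact dvd_zero _⟩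
    intro h
    have h1 : q ∣ D.natAbs := Int.natCast_dvd.mp h
    have h2 := Nat.le_of_dvd (Int.natAbs_pos.mpr hD) h1
    omega
  · set a : ℤ := f.eval 0 with ha'
    set P : ℤ := D * (X.factorial : ℤ) with hP
    have hP0 : P ≠ 0 := mul_ne_zero hD (by exact_mod_cast Nat.factorial_ne_zero X)
    have hfin : ({t : ℤ | f.eval t = a} ∪ {t : ℤ | f.eval t = -a} ∪
        {t : ℤ | f.eval t = 0}).Finite :=
      ((rel2_finite f hf _).union (rel2_finite f hf _)).union (rel2_finite f hf _)
    have hinj : Function.Injective (fun y : ℕ => a * P * (y : ℤ)) := by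
      intro y y' h
      have h1 : a * P * (y : ℤ) = a * P * (y' : ℤ) := h
      exact_mod_cast mul_left_cancel₀ (mul_ne_zero ha hP0) h1
    obtain ⟨t, ⟨y, hy⟩, ht⟩ := (Set.infinite_range_of_injective hinj).exists_notMem_finite hfin
    simp only [Set.mem_union, Set.mem_ofPred_eq, not_or] at ht
    obtain ⟨⟨h1, h2⟩, h3⟩ := ht
    have hy' : t = a * P * (y : ℤ) := hy.symm
    have hd : t - 0 ∣ f.eval t - f.eval 0 := sub_dvd_eval_sub t 0 f
    rw [sub_zero] at hd
    obtain ⟨m, hm⟩ := hd
    have hft : f.eval t = a * (1 + P * ((y : ℤ) * m)) := by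
      have : f.eval t = a + t * m := by rw [← hm, ha']; ring
      rw [this, hy']
      ring
    set g : ℤ := 1 + P * ((y : ℤ) * m) with hg
    have hg1 : g.natAbs ≠ 1 := by
      intro h
      rcases Int.natAbs_eq g with h' | h' <;> rw [h] at h'
      · apply h1
        rw [hft, h']
        simp
      · apply h2
        rw [hft, h']
        simp
    obtain ⟨q, hqp, hqd⟩ := Nat.exists_prime_and_dvd hg1
    have hqg : (q : ℤ) ∣ g := Int.natCast_dvd.mpr hqd
    have hqP : ¬ (q : ℤ) ∣ P := by
      intro h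
      have h4 : (q : ℤ) ∣ 1 := by
        have h5 : (q : ℤ) ∣ P * ((y : ℤ) * m) := Dvd.dvd.mul_right h _
        have h6 := dvd_sub hqg h5
        rwa [hg, add_sub_cancel_right] at h6
      exact hqp.one_lt.ne' (by exact_mod_cast Int.eq_one_of_dvd_one (by positivity) h4)
    refine ⟨q, hqp, ?_, ?_, t, ?_⟩
    · by_contra hle
      apply hqP
      rw [hP]
      refine Dvd.dvd.mul_left ?_ _
      exact_mod_cast (hqp.dvd_factorial).mpr (not_lt.mp hle)
    · intro h
      exact hqP (hP ▸ Dvd.dvd.mul_right h _)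
    · rw [hft]
      exact Dvd.dvd.mul_left hqg _

end Pool.Agent.H41.Rel
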