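import Pool.Agent.H41.Rel.Defs
import Pool.Agent.H41.Rel.Schur
import Pool.Agent.H41.Rel.Place
import Pool.Agent.H41.Rel.Frob

/-!
# Places at completely split primes (project RG, relative block, row REL-5)
-/

set_option autoImplicit false

open NumberField IsDedekindDomain Polynomial Pool.Agent.H35.AN

namespace Pool.Agent.H41.Rel

/-- a nonzero integer which is a multiple of a given nonzero algebraic integer -/
theorem rel5_norm {Ω : Type} [Field Ω] [CharZero Ω] (w : Ω) : ∃ N : ℤ, N ≠ 0 ∧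
    ∀ z : integralClosure ℤ Ω, (z : Ω) = w → w ≠ 0 → z ∣ (N : integralClosure ℤ Ω) := by
  by_cases hw : ∃ z : integralClosure ℤ Ω, (z : Ω) = w ∧ w ≠ 0
  · obtain ⟨z, rfl, hz⟩ := hw
    have hz0 : z ≠ 0 := fun h => hz (by rw [h]; rfl)
    have halg : IsAlgebraic ℤ z := by
      have h1 : IsIntegral ℤ z := Algebra.IsIntegral.isIntegral z
      exact h1.isAlgebraic
    obtain ⟨N, hN, hd⟩ := halg.exists_nonzero_dvd (mem_nonZeroDivisors_of_ne_zero hz0)
    refine ⟨N, hN, fun z' hz' _ => ?_⟩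
    have : z' = z := Subtype.ext hz'
    rw [this]
    simpa using hd
  · exact ⟨1, one_ne_zero, fun z hz h0 => absurd ⟨z, hz, h0⟩ hw⟩

theorem rel5_ne {Ω κ : Type} [Field Ω] [Field κ] (q : ℕ) [CharP κ q]
    (r : integralClosure ℤ Ω →+* κ) (z : integralClosure ℤ Ω) (N : ℤ)
    (hz : z ∣ (N : integralClosure ℤ Ω)) (hN : ¬ (q : ℤ) ∣ N) : r z ≠ 0 := by
  intro h0
  obtain ⟨c, hc⟩ := hz
  have h1 : r (N : integralClosure ℤ Ω) = 0 := by rw [hc, map_mul, h0, zero_mul]
  rw [map_intCast] at h1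
  exact hN ((CharP.intCast_eq_zero_iff κ q N).mp h1)

/-- a primitive algebraic integer for finitely many embeddings -/
theorem rel5_prim {F Ω ι : Type} [Field F] [NumberField F] [Field Ω] [CharZero Ω] [Finite ι]
    [Algebra.IsAlgebraic ℚ Ω] (g : ι → (F →ₐ[ℚ] Ω)) :
    ∃ β : integralClosure ℤ Ω, ∀ σ : Ω ≃ₐ[ℚ] Ω, σ (β : Ω) = β → ∀ o x, σ (g o x) = g o x := by
  classical
  let E : IntermediateField ℚ Ω := ⨆ o, (g o).fieldRange
  have hfd : ∀ o, FiniteDimensional ℚ (g o).fieldRange := fun o =>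
    (g o).toLinearMap.finiteDimensional_range
  have hE : FiniteDimensional ℚ E := IntermediateField.finiteDimensional_iSup_of_finite
  obtain ⟨α, hα⟩ := Field.exists_primitive_element ℚ E
  have h1 : IsAlgebraic ℤ (α : Ω) :=
    (IsFractionRing.isAlgebraic_iff ℤ ℚ Ω).mpr (Algebra.IsAlgebraic.isAlgebraic (α : Ω))
  obtain ⟨m, hm, hint⟩ := h1.exists_integral_multiple
  refine ⟨⟨m • (α : Ω), hint⟩, fun σ hσ o x => ?_⟩
  have hm' : (m : Ω) ≠ 0 := by exact_mod_cast hm
  have h2 : σ (α : Ω) = α := by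
    have h3 : σ (m • (α : Ω)) = m • (α : Ω) := hσ
    rw [zsmul_eq_mul, map_mul, map_intCast] at h3
    exact mul_left_cancel₀ hm' h3
  have h4 : (σ.toAlgHom.comp E.val) = E.val := by
    have h5 : Algebra.adjoin ℚ {α} = ⊤ := by
      rw [← IntermediateField.adjoin_simple_toSubalgebra_of_isAlgebraic
        (Algebra.IsAlgebraic.isAlgebraic α), hα]
      rfl
    refine AlgHom.ext_of_adjoin_eq_top h5 ?_
    intro y hy
    rw [Set.mem_singleton_iff] at hy
    subst hy
    exact h2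
  have h6 : g o x ∈ E := (le_iSup (fun o => (g o).fieldRange) o) ⟨x, rfl⟩
  have h7 := DFunLike.congr_fun h4 ⟨g o x, h6⟩
  exact h7

section

variable {k F Ω : Type} [Field k] [NumberField k] [Field F] [NumberField F] [Field Ω]
  [Algebra k F] [Algebra k Ω] [Algebra F Ω] [IsScalarTower k F Ω] [IsAlgClosure F Ω]

theorem exists_split {b : ℕ} (s : Fin b → (Ω ≃ₐ[k] Ω))
    (hs : ∀ i j, (∀ x : F, s i (algebraMap F Ω x) = s j (algebraMap F Ω x)) → i = j) (X : ℕ) :
    ∃ (q : ℕ) (κ : Type) (_ : Field κ) (r : integralClosure ℤ Ω →+* κ) (σ : Ω ≃ₐ[k] Ω),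
      q.Prime ∧ X < q ∧ CharP κ q ∧ Function.Surjective r ∧ IsFrob r σ q ∧
      (∀ i (x : F), σ (s i (algebraMap F Ω x)) = s i (algebraMap F Ω x)) ∧
      (∀ i j, i ≠ j → ∃ (y : 𝓞 F) (z z' : integralClosure ℤ Ω),
        (z : Ω) = s i (algebraMap F Ω (y : F)) ∧ (z' : Ω) = s j (algebraMap F Ω (y : F)) ∧
          r z ≠ r z') := by
  classical
  have hcz : CharZero Ω := charZero_of_injective_algebraMap (algebraMap F Ω).injective
  have hac : IsAlgClosed Ω := IsAlgClosure.isAlgClosed F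
  have halgF : Algebra.IsAlgebraic F Ω := IsAlgClosure.isAlgebraic
  have halg : Algebra.IsAlgebraic ℚ Ω := Algebra.IsAlgebraic.trans ℚ F Ω
  have hcl : IsAlgClosure ℚ Ω := ⟨hac, halg⟩
  -- the embeddings
  let g : Option (Fin b) → (F →ₐ[ℚ] Ω) := fun o =>
    match o with
    | none => (algebraMap F Ω).toRatAlgHom
    | some i => ((s i).toRingEquiv.toRingHom.comp (algebraMap F Ω)).toRatAlgHom
  obtain ⟨β, hβ⟩ := rel5_prim g
  -- separation of the embeddings
  have hsep : ∀ i j, ∃ y : 𝓞 F, i ≠ j →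
      s i (algebraMap F Ω (y : F)) ≠ s j (algebraMap F Ω (y : F)) := by
    intro i j
    by_cases hij : i = j
    · exact ⟨0, fun h => absurd hij h⟩
    have h1 : ∃ x : F, s i (algebraMap F Ω x) ≠ s j (algebraMap F Ω x) := by
      by_contra hcon
      push Not at hcon
      exact hij (hs i j hcon)
    obtain ⟨x, hx⟩ := h1
    have h2 : IsAlgebraic ℤ x :=
      (IsFractionRing.isAlgebraic_iff ℤ ℚ F).mpr (Algebra.IsAlgebraic.isAlgebraic x)
    obtain ⟨m, hm, hint⟩ := h2.exists_integral_multiple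
    refine ⟨⟨m • x, hint⟩, fun _ heq => hx ?_⟩
    have hm' : (m : Ω) ≠ 0 := by exact_mod_cast hm
    have h3 : s i (algebraMap F Ω (m • x)) = s j (algebraMap F Ω (m • x)) := heq
    rw [zsmul_eq_mul, map_mul, map_mul, map_mul, map_intCast, map_intCast, map_intCast] at h3
    exact mul_left_cancel₀ hm' h3
  choose y hy using hsep
  choose N hN0 hN using fun w : Ω => rel5_norm w
  -- the integer to avoid
  set f : ℤ[X] := minpoly ℤ (β : Ω) with hf
  have hβi : IsIntegral ℤ (β : Ω) := β.2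
  have hfdeg : 0 < f.natDegree := minpoly.natDegree_pos hβi
  have hf0 : f ≠ 0 := minpoly.ne_zero hβi
  let D : ℤ := (∏ w ∈ (f.aroots Ω).toFinset, N (w - (β : Ω))) *
    ∏ i, ∏ j, N (s i (algebraMap F Ω (y i j : F)) - s j (algebraMap F Ω (y i j : F)))
  have hD : D ≠ 0 := mul_ne_zero (Finset.prod_ne_zero_iff.mpr fun w _ => hN0 _)
    (Finset.prod_ne_zero_iff.mpr fun i _ => Finset.prod_ne_zero_iff.mpr fun j _ => hN0 _)
  obtain ⟨q, hq, hXq, hqD, t, ht⟩ := exists_prime_root f hfdeg D hD X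
  obtain ⟨κ, hκ, r, hchar, hsurj, hrβ⟩ := exists_place Ω β q hq t ht
  obtain ⟨σ, hσ⟩ := exists_frob Ω q hq κ r
  have hqf : Fact q.Prime := ⟨hq⟩
  -- the Frobenius automorphism fixes `β`
  have hint : IsIntegral ℤ (σ (β : Ω)) := hβi.map (σ.toAlgHom.restrictScalars ℤ)
  have hσβ : σ (β : Ω) = β := by
    by_contra hne
    let z : integralClosure ℤ Ω := ⟨σ (β : Ω), hint⟩
    have h1 : r z = r β := by
      rw [hσ β z rfl, hrβ]
      have h2 : (frobenius κ q) (t : κ) = (t : κ) := map_intCast _ _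
      rwa [frobenius_def] at h2
    have h3 : r (z - β) = 0 := by rw [map_sub, h1, sub_self]
    have h4 : ((z - β : integralClosure ℤ Ω) : Ω) = σ (β : Ω) - β := rfl
    have h5 := hN (σ (β : Ω) - β) (z - β) h4 (sub_ne_zero.mpr hne)
    refine rel5_ne q r (z - β) _ h5 ?_ h3
    intro hdvd
    apply hqD
    refine Dvd.dvd.mul_right (hdvd.trans ?_) _
    refine Finset.dvd_prod_of_mem (fun w => N (w - (β : Ω))) ?_
    rw [Multiset.mem_toFinset, mem_aroots]
    refine ⟨hf0, ?_⟩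
    have h6 : aeval (σ (β : Ω)) f = σ (aeval (β : Ω) f) := by
      exact aeval_algHom_apply (σ.toAlgHom.restrictScalars ℤ) (β : Ω) f
    rw [h6, hf, minpoly.aeval, map_zero]
  have hfix := hβ σ hσβ
  have hfixk : ∀ c : k, σ (algebraMap k Ω c) = algebraMap k Ω c := by
    intro c
    rw [IsScalarTower.algebraMap_apply k F Ω]
    exact hfix none (algebraMap k F c)
  let σ' : Ω ≃ₐ[k] Ω := AlgEquiv.ofRingEquiv (f := σ.toRingEquiv) hfixk
  refine ⟨q, κ, hκ, r, σ', hq, hXq, hchar, hsurj, ?_, ?_, ?_⟩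
  · intro a z hz
    exact hσ a z hz
  · intro i x
    exact hfix (some i) x
  · intro i j hij
    have hyi : ∀ l, IsIntegral ℤ (s l (algebraMap F Ω (y i j : F))) := by
      intro l
      have h1 : IsIntegral ℤ (y i j : F) := (y i j).2
      exact (h1.map ((Algebra.ofId F Ω).restrictScalars ℤ)).map ((s l).toAlgHom.restrictScalars ℤ)
    refine ⟨y i j, ⟨_, hyi i⟩, ⟨_, hyi j⟩, rfl, rfl, ?_⟩
    intro heq
    have h2 : r (⟨_, hyi i⟩ - ⟨_, hyi j⟩) = 0 := by rw [map_sub, heq, sub_self]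
    have h3 := hN (s i (algebraMap F Ω (y i j : F)) - s j (algebraMap F Ω (y i j : F)))
      (⟨_, hyi i⟩ - ⟨_, hyi j⟩) rfl (sub_ne_zero.mpr (hy i j hij))
    refine rel5_ne q r _ _ h3 ?_ h2
    intro hdvd
    apply hqD
    refine Dvd.dvd.mul_left (hdvd.trans ?_) _
    refine Dvd.dvd.trans ?_ (Finset.dvd_prod_of_mem (fun i => ∏ j,
      N (s i (algebraMap F Ω (y i j : F)) - s j (algebraMap F Ω (y i j : F)))) (Finset.mem_univ i))
    exact Finset.dvd_prod_of_mem (fun j =>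
      N (s i (algebraMap F Ω (y i j : F)) - s j (algebraMap F Ω (y i j : F)))) (Finset.mem_univ j)

end

end Pool.Agent.H41.Rel
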