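import Pool.Agent.H41.Rel.Defs
import Pool.Agent.H41.Rel.Jordan
import Pool.Agent.H41.Rel.Split
import Pool.Agent.H41.Rel.Conj
import Pool.Agent.H41.Rel.Class

/-!
# Project RG (MP_a3214d), relative block, row 8: the full product by congruences
-/

set_option autoImplicit false

open NumberField IsDedekindDomain Polynomial Pool.Agent.H35.AN

namespace Pool.Agent.H41.Rel

/-- the conjugate of a place, with surjectivity -/
theorem rel8_conj {k Ω : Type} [Field k] [Field Ω] [Algebra k Ω] (s : Ω ≃ₐ[k] Ω) {κ : Type}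
    [Field κ] (r : integralClosure ℤ Ω →+* κ) :
    ∃ r' : integralClosure ℤ Ω →+* κ, (Function.Surjective r → Function.Surjective r') ∧
      ∀ y z : integralClosure ℤ Ω, (z : Ω) = s (y : Ω) → r' y = r z := by
  have h : ∀ y z : integralClosure ℤ Ω, (z : Ω) = s (y : Ω) →
      (r.comp (rel6_res (s : Ω →+* Ω))) y = r z := by
    intro y z hyz
    rw [RingHom.comp_apply]
    congr 1
    apply Subtype.ext
    rw [rel6_res_coe, hyz]
    rfl
  refine ⟨r.comp (rel6_res (s : Ω →+* Ω)), fun hr c => ?_, h⟩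
  obtain ⟨z, hz⟩ := hr c
  refine ⟨rel6_res (s.symm : Ω →+* Ω) z, ?_⟩
  rw [h _ z ?_, hz]
  rw [rel6_res_coe]
  exact (s.apply_symm_apply (z : Ω)).symm

/-- a prime of norm `q` does not contain an integer prime to `q` -/
theorem rel8_not_mem {F : Type} [Field F] [NumberField F] {q M : ℕ} (hq : q.Prime) (hM : 0 < M)
    (hMq : M < q) (p : HeightOneSpectrum (𝓞 F)) (hp : Ideal.absNorm p.asIdeal = q) :
    (M : 𝓞 F) ∉ p.asIdeal := by
  intro h
  have h1 : (q : 𝓞 F) ∈ p.asIdeal := by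
    rw [← hp]
    exact Ideal.absNorm_mem _
  have h2 : IsCoprime (q : ℤ) (M : ℤ) := by
    rw [Nat.isCoprime_iff_coprime]
    exact (Nat.Prime.coprime_iff_not_dvd hq).mpr
      (fun hd => absurd (Nat.le_of_dvd hM hd) (not_le.mpr hMq))
  obtain ⟨a, c, hac⟩ := h2
  have h3 : ((a * q + c * M : ℤ) : 𝓞 F) ∈ p.asIdeal := by
    push_cast
    exact p.asIdeal.add_mem (p.asIdeal.mul_mem_left _ h1) (p.asIdeal.mul_mem_left _ h)
  rw [hac, Int.cast_one] at h3
  exact p.isPrime.ne_top ((Ideal.eq_top_iff_one _).mpr h3)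

/-- arbitrarily large data with pairwise different indices -/
theorem rel8_seq (q : ℕ → ℕ) (hq : ∀ X, X < q X) (X₀ : ℕ) :
    ∃ X : ℕ → ℕ, (∀ n, X₀ < q (X n)) ∧ Function.Injective (fun n => q (X n)) := by
  let X : ℕ → ℕ := fun n => Nat.rec X₀ (fun _ x => q x) n
  have h0 : X 0 = X₀ := rfl
  have hs : ∀ n, X (n + 1) = q (X n) := fun n => rfl
  have hmono : StrictMono X := strictMono_nat_of_lt_succ fun n => by
    rw [hs]
    exact hq _
  refine ⟨X, fun n => ?_, fun a c hac => ?_⟩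
  · have h1 : X₀ ≤ X n := by
      rw [← h0]
      exact hmono.monotone (Nat.zero_le n)
    exact lt_of_le_of_lt h1 (hq _)
  · have h1 : X (a + 1) = X (c + 1) := hac
    exact Nat.succ_injective (hmono.injective h1)

section

variable (k F Ω : Type) [Field k] [NumberField k] [Field F] [NumberField F] [Field Ω]
  [Algebra k F] [Algebra k Ω] [Algebra F Ω] [IsScalarTower k F Ω] [IsAlgClosure F Ω]

/-- the primes and the Frobenius automorphisms of a completely split place -/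
theorem rel8_data {b : ℕ} (s : Fin b → (Ω ≃ₐ[k] Ω))
    (hs : ∀ i j, (∀ x : F, s i (algebraMap F Ω x) = s j (algebraMap F Ω x)) → i = j) (X : ℕ) :
    ∃ (q : ℕ) (κ : Type) (_ : Field κ) (r : Fin b → (integralClosure ℤ Ω →+* κ))
      (σ : Ω ≃ₐ[k] Ω) (τ : Fin b → (Ω ≃ₐ[F] Ω)) (p : Fin b → HeightOneSpectrum (𝓞 F)),
      q.Prime ∧ X < q ∧ (∀ i, Function.Surjective (r i)) ∧
      (∀ i y, σ (s i y) = s i (τ i y)) ∧ (∀ i, IsFrob (r i) (τ i) q) ∧
      (∀ i, Over (p i) (r i)) ∧ (∀ i, Ideal.absNorm (p i).asIdeal = q) ∧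
      Function.Injective p := by
  obtain ⟨q, κ, hκ, r, σ, hq, hX, hchar, hsurj, hfrob, hfix, hne⟩ :=
    exists_split (F := F) s hs X
  choose r' hr's hr' using fun i => rel8_conj (s i) r
  choose τ hτ hτf using fun i => exists_conj_frob (F := F) (s i) σ q r (r' i) hfrob (hr' i)
    (hfix i)
  choose p hp hpN using fun i => exists_prime q hq (r' i) (τ i) (hτf i)
  refine ⟨q, κ, hκ, r', σ, τ, p, hq, hX, fun i => hr's i hsurj, hτ, hτf, hp, hpN, ?_⟩
  intro i j hij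
  by_contra hne'
  obtain ⟨y, z, z', hz, hz', hzz⟩ := hne i j hne'
  refine prime_ne q hq (r' i) (r' j) (p i) (p j) (hp i) (hp j) (hpN i) (hpN j) y
    (rel6_inc F Ω y) (rel6_inc F Ω y) (rel6_inc_coe F Ω y) (rel6_inc_coe F Ω y) ?_ hij
  rw [hr' i (rel6_inc F Ω y) z (by rw [hz, rel6_inc_coe]),
    hr' j (rel6_inc F Ω y) z' (by rw [hz', rel6_inc_coe])]
  exact hzz

/-- REL-8: the full product by congruences -/
theorem exists_full {b : ℕ} (s : Fin b → (Ω ≃ₐ[k] Ω))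
    (hs : ∀ i j, (∀ x : F, s i (algebraMap F Ω x) = s j (algebraMap F Ω x)) → i = j)
    {G : Type} [Group G] [Finite G] {m : ℕ} (T : Type) (u : T → Fin m → 𝓞 F)
    (h : T → ((Ω ≃ₐ[F] Ω) →* G)) {M₀ : ℕ} (hM₀ : 0 < M₀) (α₀ : Fin m → 𝓞 F)
    (bad : Finset (HeightOneSpectrum (𝓞 F)))
    (loc : ∀ p : HeightOneSpectrum (𝓞 F), p ∉ bad → ∀ g : G, ∃ ug : Fin m → 𝓞 F,
      ∀ t : T, (∀ i, (M₀ : 𝓞 F) ∣ u t i - α₀ i) → (∀ i, u t i - ug i ∈ p.asIdeal) →
        ∀ (κ : Type) [Field κ] (r : integralClosure ℤ Ω →+* κ) (τ : Ω ≃ₐ[F] Ω),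
          Function.Surjective r → Over p r → IsFrob r τ (Ideal.absNorm p.asIdeal) → ∃ a : G, h t τ = a * g * a⁻¹) :
    ∃ M : ℕ, 0 < M ∧ M₀ ∣ M ∧ ∃ α : Fin m → 𝓞 F, (∀ i, (M₀ : 𝓞 F) ∣ α i - α₀ i) ∧
      ∀ t : T, (∀ i, (M : 𝓞 F) ∣ u t i - α i) → ∀ γ : Fin b → G,
        ∃ (σ : Ω ≃ₐ[k] Ω) (τ : Fin b → (Ω ≃ₐ[F] Ω)),
          (∀ i y, σ (s i y) = s i (τ i y)) ∧ ∀ i, h t (τ i) = γ i := by
  choose q κ hκ r σ τ p hq hX hsurj hτ hfrob hover hN hinj using rel8_data k F Ω s hs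
  set X₀ := M₀ + bad.sup (fun P => Ideal.absNorm P.asIdeal) with hX₀
  obtain ⟨X, hXl, hXinj⟩ := rel8_seq q hX X₀
  obtain ⟨N, ⟨e⟩⟩ := Finite.exists_equiv_fin (Fin b → G)
  have einj : ∀ γ γ' : Fin b → G, ((e γ : Fin N) : ℕ) = e γ' → γ = γ' :=
    fun γ γ' hγ => e.injective (Fin.ext hγ)
  -- the primes
  let P : ((Fin b → G) × Fin b) → HeightOneSpectrum (𝓞 F) := fun j => p (X (e j.1)) j.2
  have hPN : ∀ j, Ideal.absNorm (P j).asIdeal = q (X (e j.1)) := fun j => hN _ _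
  have hPinj : Function.Injective P := by
    rintro ⟨γ, i⟩ ⟨γ', i'⟩ hj
    have h1 : q (X (e γ)) = q (X (e γ')) := by
      rw [← hPN (γ, i), ← hPN (γ', i'), hj]
    have h2 := einj γ γ' (hXinj h1)
    subst h2
    rw [hinj (X (e γ)) (a₁ := i) (a₂ := i') hj]
  have hPbad : ∀ j, P j ∉ bad := by
    intro j hj
    have h1 : Ideal.absNorm (P j).asIdeal ≤ bad.sup (fun P => Ideal.absNorm P.asIdeal) :=
      Finset.le_sup (f := fun P : HeightOneSpectrum (𝓞 F) => Ideal.absNorm P.asIdeal) hj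
    have h2 := hXl (e j.1)
    rw [hPN] at h1
    omega
  have hPM : ∀ j, (M₀ : 𝓞 F) ∉ (P j).asIdeal := by
    intro j
    have h2 := hXl (e j.1)
    exact rel8_not_mem (hq _) hM₀ (by omega) (P j) (hPN j)
  choose ug hug using fun j : (Fin b → G) × Fin b => loc (P j) (hPbad j) (j.1 j.2)
  obtain ⟨M, hM, hMM, α, hα, hcl⟩ := exists_class F _ P hPinj ug hM₀ hPM α₀
  refine ⟨M, hM, hMM, α, hα, fun t ht => ?_⟩
  have ht0 : ∀ i, (M₀ : 𝓞 F) ∣ u t i - α₀ i := by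
    intro i
    have h1 : (M₀ : 𝓞 F) ∣ u t i - α i := (Nat.cast_dvd_cast hMM).trans (ht i)
    have h2 := dvd_add h1 (hα i)
    rwa [sub_add_sub_cancel] at h2
  -- the subgroup of the good `γ`
  let U : Subgroup (Fin b → G) :=
    { carrier := {γ | ∃ (σ : Ω ≃ₐ[k] Ω) (τ : Fin b → (Ω ≃ₐ[F] Ω)),
        (∀ i y, σ (s i y) = s i (τ i y)) ∧ ∀ i, h t (τ i) = γ i}
      mul_mem' := by
        rintro γ γ' ⟨σ, τ, h1, h2⟩ ⟨σ', τ', h1', h2'⟩
        refine ⟨σ * σ', fun i => τ i * τ' i, fun i y => ?_, fun i => ?_⟩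
        · rw [AlgEquiv.mul_apply, AlgEquiv.mul_apply, h1', h1]
        · rw [map_mul, h2, h2', Pi.mul_apply]
      one_mem' := ⟨1, fun _ => 1, fun i y => rfl, fun i => by rw [map_one, Pi.one_apply]⟩
      inv_mem' := by
        rintro γ ⟨σ, τ, h1, h2⟩
        refine ⟨σ⁻¹, fun i => (τ i)⁻¹, fun i y => ?_, fun i => ?_⟩
        · have h3 := h1 i ((τ i)⁻¹ y)
          have h4 : τ i ((τ i)⁻¹ y) = y := (τ i).apply_symm_apply y
          rw [h4] at h3
          show σ⁻¹ (s i y) = s i ((τ i)⁻¹ y)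
          rw [← h3]
          exact σ.symm_apply_apply _
        · rw [map_inv, h2, Pi.inv_apply] }
  have hU : U = ⊤ := by
    refine jordan U fun γ => ?_
    have h1 : ∀ i, ∃ a : G, h t (τ (X (e γ)) i) = a * γ i * a⁻¹ := by
      intro i
      refine hug (γ, i) t ht0 (fun i' => hcl (u t) ht (γ, i) i') (κ (X (e γ)))
        (r (X (e γ)) i) (τ (X (e γ)) i) (hsurj _ i) (hover _ i) ?_
      rw [hPN]
      exact hfrob _ i
    choose a ha using h1
    exact ⟨a, σ (X (e γ)), τ (X (e γ)), hτ _, fun i => ha i⟩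
  intro γ
  have hγ : γ ∈ U := by
    rw [hU]
    exact Subgroup.mem_top γ
  exact hγ

end

end Pool.Agent.H41.Rel
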