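import Pool.Agent.H41.Rel.Defs
import Pool.Agent.H35.AN.Count

/-!
# Project RG (MP_a3214d), relative block, REL-11: from a finite set of fields to `malleCount`
-/

set_option autoImplicit false

open NumberField IsDedekindDomain Polynomial Pool.Agent.H35.AN

namespace Pool.Agent.H41.Rel

theorem rel11_equivalence (k : Type) [Field k] [NumberField k] (n : ℕ)
    (G : Subgroup (Equiv.Perm (Fin n))) (B : ℝ) :
    Equivalence (fun L L' : an35_X k n G B => Nonempty (L.1 ≃ₐ[k] L'.1)) :=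
  ⟨fun L => ⟨AlgEquiv.refl⟩, fun ⟨e⟩ => ⟨e.symm⟩, fun ⟨e⟩ ⟨f⟩ => ⟨e.trans f⟩⟩

/-- transport of the group condition along isomorphisms -/
theorem rel11_hasGroup {k Ω Ω' M M' : Type} [Field k] [Field Ω] [Field Ω'] [Field M] [Field M']
    [Algebra k Ω] [Algebra k Ω'] [Algebra k M] [Algebra k M'] {n : ℕ}
    (G : Subgroup (Equiv.Perm (Fin n))) (ψ : Ω ≃ₐ[k] Ω') (θ : M ≃ₐ[k] M')
    (h : HasGroup k Ω M G) : HasGroup k Ω' M' G := by
  obtain ⟨e, he⟩ := h
  let e' : (M' →ₐ[k] Ω') ≃ Fin n := (AlgEquiv.arrowCongr θ.symm ψ.symm).trans e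
  have h1 : ∀ φ' : M' →ₐ[k] Ω', e' φ' =
      e ((ψ.symm : Ω' →ₐ[k] Ω).comp (φ'.comp (θ : M →ₐ[k] M'))) := fun φ' => by
    change e _ = e _
    congr 1
  have h2 : ∀ φ : M →ₐ[k] Ω,
      e φ = e' ((ψ : Ω →ₐ[k] Ω').comp (φ.comp (θ.symm : M' →ₐ[k] M))) := fun φ => by
    rw [h1]
    congr 1
    ext x
    simp
  refine ⟨e', fun π => ?_⟩
  rw [he]
  constructor
  · rintro ⟨σ, hσ⟩
    refine ⟨(ψ.symm.trans σ).trans ψ, fun φ' => ?_⟩
    rw [h1, h1, ← hσ]
    congr 1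
    ext x
    simp
  · rintro ⟨σ, hσ⟩
    refine ⟨(ψ.trans σ).trans ψ.symm, fun φ => ?_⟩
    rw [h2, h2, ← hσ]
    congr 1
    ext x
    simp

open scoped Classical in
theorem card_le_malleCount (k Ω : Type) [Field k] [NumberField k] [Field Ω] [Algebra k Ω]
    [IsAlgClosure k Ω] {N : ℕ} (G : Subgroup (Equiv.Perm (Fin N))) (B : ℝ) (b : ℕ)
    (S : Finset (IntermediateField k Ω))
    (hS : ∀ K ∈ S, Module.finrank k K = N ∧ HasGroup k Ω K G ∧
      ∃ _ : NumberField K, |(NumberField.discr K : ℝ)| ≤ B)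
    (hb : ∀ K ∈ S, (S.filter (fun K' : IntermediateField k Ω => Nonempty (K ≃ₐ[k] K'))).card ≤ b) :
    (S.card : ℝ) ≤ b * malleCount k N G B := by
  let ψ : Ω ≃ₐ[k] AlgebraicClosure k := IsAlgClosure.equiv k Ω (AlgebraicClosure k)
  have hk1 : (1 : ℝ) ≤ ((|NumberField.discr k| : ℤ) : ℝ) ^ N := by
    refine one_le_pow₀ ?_
    exact_mod_cast Int.one_le_abs (NumberField.discr_ne_zero k)
  have hiso : ∀ K : IntermediateField k Ω, Nonempty (K ≃ₐ[k] (K.map (ψ : Ω →ₐ[k] AlgebraicClosure k))) :=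
    fun K => ⟨K.equivMap (ψ : Ω →ₐ[k] AlgebraicClosure k)⟩
  have hX : ∀ K ∈ S, Module.finrank k (K.map (ψ : Ω →ₐ[k] AlgebraicClosure k)) = N ∧
      (∃ e : ((K.map (ψ : Ω →ₐ[k] AlgebraicClosure k)) →ₐ[k] AlgebraicClosure k) ≃ Fin N,
        ∀ π : Equiv.Perm (Fin N),
        π ∈ G ↔ ∃ σ : AlgebraicClosure k ≃ₐ[k] AlgebraicClosure k,
          ∀ φ : (K.map (ψ : Ω →ₐ[k] AlgebraicClosure k)) →ₐ[k] AlgebraicClosure k,
            e (σ.toAlgHom.comp φ) = π (e φ)) ∧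
      ∃ h : NumberField (K.map (ψ : Ω →ₐ[k] AlgebraicClosure k)),
        ((|@NumberField.discr (K.map (ψ : Ω →ₐ[k] AlgebraicClosure k)) _ h| : ℤ) : ℝ) ≤
          B * ((|NumberField.discr k| : ℤ) : ℝ) ^ N := by
    intro K hK
    obtain ⟨h1, h2, h3, h4⟩ := hS K hK
    obtain ⟨θ⟩ := hiso K
    refine ⟨?_, rel11_hasGroup G ψ θ h2, ?_⟩
    · rw [← h1]
      exact (LinearEquiv.finrank_eq θ.toLinearEquiv).symm
    · have h5 : NumberField (K.map (ψ : Ω →ₐ[k] AlgebraicClosure k)) :=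
        NumberField.of_ringEquiv K _ θ.toRingEquiv
      refine ⟨h5, ?_⟩
      have h6 : NumberField.discr (K.map (ψ : Ω →ₐ[k] AlgebraicClosure k)) =
          NumberField.discr K :=
        (NumberField.discr_eq_discr_of_ringEquiv K θ.toRingEquiv).symm
      rw [h6]
      have h7 : 0 ≤ B := (abs_nonneg _).trans h4
      push_cast
      refine h4.trans ?_
      have h8 := mul_le_mul_of_nonneg_left hk1 h7
      push_cast at h8
      linarith
  let F : {K // K ∈ S} → an35_X k N G B :=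
    fun K => ⟨K.1.map (ψ : Ω →ₐ[k] AlgebraicClosure k), hX K.1 K.2⟩
  have hfin := an35_finite k N G B
  have key := an35_fibres (fun L L' : an35_X k N G B => Nonempty (L.1 ≃ₐ[k] L'.1))
    (rel11_equivalence k N G B) S.attach F b ?_
  · rw [Finset.card_attach] at key
    have h1 : S.card ≤ b * malleCount k N G B := key
    exact_mod_cast h1
  · intro z₀ _ S' _ hS'
    refine le_trans ?_ (hb z₀.1 z₀.2)
    refine Finset.card_le_card_of_injOn (fun z => z.1) ?_ Subtype.val_injective.injOn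
    intro z hz
    obtain ⟨e⟩ := hS' z hz
    obtain ⟨θ⟩ := hiso z.1
    obtain ⟨θ₀⟩ := hiso z₀.1
    have h1 : z.1 ∈ S.filter (fun K' : IntermediateField k Ω => Nonempty (z₀.1 ≃ₐ[k] K')) := by
      rw [Finset.mem_filter]
      exact ⟨z.2, ⟨(θ₀.trans e.symm).trans θ.symm⟩⟩
    exact h1

/-- the count is monotone in the bound -/
theorem malleCount_mono (k : Type) [Field k] [NumberField k] (n : ℕ)
    (G : Subgroup (Equiv.Perm (Fin n))) {B B' : ℝ} (h : B ≤ B') :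
    malleCount k n G B ≤ malleCount k n G B' := by
  have h0 : (0 : ℝ) ≤ ((|NumberField.discr k| : ℤ) : ℝ) ^ n := by positivity
  let ι : an35_X k n G B → an35_X k n G B' := fun L => ⟨L.1, L.2.1, L.2.2.1,
    L.2.2.2.choose, L.2.2.2.choose_spec.trans (mul_le_mul_of_nonneg_right h h0)⟩
  have hfin := an35_finite k n G B'
  have : Finite (Quot (fun L L' : an35_X k n G B' => Nonempty (L.1 ≃ₐ[k] L'.1))) :=
    Quot.finite _
  refine Nat.card_le_card_of_injective (Quot.map (rb := fun L L' : an35_X k n G B' =>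
    Nonempty (L.1 ≃ₐ[k] L'.1)) ι (fun _ _ h => h)) ?_
  intro x y
  refine Quot.induction_on₂ x y fun L L' hLL => ?_
  have h1 := Quot.eqvGen_exact hLL
  rw [(rel11_equivalence k n G B').eqvGen_iff] at h1
  exact Quot.sound h1

end Pool.Agent.H41.Rel
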