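import Pool.Agent.H41.Rel.Defs

/-!
# Project RG (MP_a3214d), row REL-12: from the levels `H` to all `B`
-/

set_option autoImplicit false

open NumberField IsDedekindDomain Pool.Agent.H35.AN

namespace Pool.Agent.H41.Rel

theorem of_levels (k : Type) [Field k] [NumberField k] {N : ℕ}
    (G : Subgroup (Equiv.Perm (Fin N))) {c D H0 : ℝ} (hc : 0 < c) (hD : 0 < D) {u v : ℕ}
    (hv : 0 < v)
    (h : ∀ H : ℝ, H0 ≤ H → c * H ^ u ≤ (malleCount k N G (D * H ^ v) : ℝ)) :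
    ∃ c' : ℝ, 0 < c' ∧ ∀ᶠ B : ℝ in Filter.atTop,
      c' * B ^ ((u : ℝ) / v) ≤ (malleCount k N G B : ℝ) := by
  have hv0 : (v : ℝ) ≠ 0 := by exact_mod_cast hv.ne'
  have hvpos : (0 : ℝ) < v := by exact_mod_cast hv
  refine ⟨c * (D ^ ((u : ℝ) / v))⁻¹, mul_pos hc (inv_pos.mpr (Real.rpow_pos_of_pos hD _)), ?_⟩
  filter_upwards [Filter.eventually_ge_atTop D,
    Filter.eventually_ge_atTop (D * (max H0 1) ^ v)] with B hB hB2
  have hB0 : 0 < B := hD.trans_le hB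
  have hq1 : 1 ≤ B / D := (one_le_div hD).mpr hB
  have hq0 : 0 ≤ B / D := zero_le_one.trans hq1
  have hm : (0 : ℝ) ≤ max H0 1 := zero_le_one.trans (le_max_right _ _)
  have h1 : H0 ≤ (B / D) ^ ((1 : ℝ) / v) := by
    have h5 : (max H0 1) ^ v ≤ B / D := by
      rw [le_div_iff₀ hD]
      linarith
    have h6 : ((max H0 1) ^ v) ^ ((1 : ℝ) / v) = max H0 1 := by
      rw [← Real.rpow_natCast, ← Real.rpow_mul hm, mul_one_div_cancel hv0, Real.rpow_one]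
    calc H0 ≤ max H0 1 := le_max_left _ _
      _ = ((max H0 1) ^ v) ^ ((1 : ℝ) / v) := h6.symm
      _ ≤ (B / D) ^ ((1 : ℝ) / v) :=
          Real.rpow_le_rpow (pow_nonneg hm _) h5 (by positivity)
  have h2 := h _ h1
  have h3 : ((B / D) ^ ((1 : ℝ) / v)) ^ v = B / D := by
    rw [← Real.rpow_natCast, ← Real.rpow_mul hq0, one_div, inv_mul_cancel₀ hv0, Real.rpow_one]
  have h4 : ((B / D) ^ ((1 : ℝ) / v)) ^ u = (D ^ ((u : ℝ) / v))⁻¹ * B ^ ((u : ℝ) / v) := by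
    rw [← Real.rpow_natCast, ← Real.rpow_mul hq0, Real.div_rpow hB0.le hD.le]
    rw [show (1 : ℝ) / v * u = (u : ℝ) / v by ring]
    rw [div_eq_inv_mul]
  rw [h3, h4, mul_div_cancel₀ _ hD.ne'] at h2
  calc c * (D ^ ((u : ℝ) / v))⁻¹ * B ^ ((u : ℝ) / v)
      = c * ((D ^ ((u : ℝ) / v))⁻¹ * B ^ ((u : ℝ) / v)) := by ring
    _ ≤ _ := h2

end Pool.Agent.H41.Rel
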