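import Pool.Agent.H41.Rel.Defs

/-!
# Project RG (MP_a3214d), relative block, REL-10: at most `b` classes over `F` in a class over `k`
-/

set_option autoImplicit false

open NumberField IsDedekindDomain Polynomial Pool.Agent.H35.AN

namespace Pool.Agent.H41.Rel

section

variable (k F Ω : Type) [Field k] [NumberField k] [Field F] [NumberField F] [Field Ω]
  [Algebra k F] [Algebra k Ω] [Algebra F Ω] [IsScalarTower k F Ω] [IsAlgClosure F Ω]

omit [NumberField k] [NumberField F] [IsAlgClosure F Ω] in
/-- the embedding of `F` attached to a `k`-isomorphism `K' = K` -/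
theorem rel10_emb (K K' : IntermediateField F Ω)
    (ψ : (K.restrictScalars k) ≃ₐ[k] (K'.restrictScalars k)) :
    ∃ φ : F →ₐ[k] Ω, ∀ x : F,
      ((ψ.symm ⟨algebraMap F Ω x, K'.algebraMap_mem x⟩ : K.restrictScalars k) : Ω) = φ x := by
  refine ⟨((K.restrictScalars k).val.comp ψ.symm.toAlgHom).comp
    { toFun := fun x => (⟨algebraMap F Ω x, K'.algebraMap_mem x⟩ : K'.restrictScalars k)
      map_one' := by
        apply Subtype.ext
        simp
      map_mul' := fun x y => by
        apply Subtype.ext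
        simp
      map_zero' := by
        apply Subtype.ext
        simp
      map_add' := fun x y => by
        apply Subtype.ext
        simp
      commutes' := fun a => by
        apply Subtype.ext
        exact (IsScalarTower.algebraMap_apply k F Ω a).symm }, fun x => rfl⟩

omit [NumberField k] [NumberField F] [IsAlgClosure F Ω] in
/-- equal embeddings give an isomorphism over `F` -/
theorem rel10_iso (K K' K'' : IntermediateField F Ω)
    (ψ' : (K.restrictScalars k) ≃ₐ[k] (K'.restrictScalars k))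
    (ψ'' : (K.restrictScalars k) ≃ₐ[k] (K''.restrictScalars k))
    (h : ∀ x : F, ψ'.symm ⟨algebraMap F Ω x, K'.algebraMap_mem x⟩ =
      ψ''.symm ⟨algebraMap F Ω x, K''.algebraMap_mem x⟩) :
    Nonempty (K' ≃ₐ[F] K'') := by
  have key : ∀ x : F, (ψ'.symm.trans ψ'') ⟨algebraMap F Ω x, K'.algebraMap_mem x⟩ =
      ⟨algebraMap F Ω x, K''.algebraMap_mem x⟩ := by
    intro x
    rw [AlgEquiv.trans_apply, h x, AlgEquiv.apply_symm_apply]
  refine ⟨AlgEquiv.ofRingEquiv (f := (ψ'.symm.trans ψ'').toRingEquiv) ?_⟩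
  intro x
  exact key x

open scoped Classical in
theorem card_class_le {b : ℕ} (hb : Module.finrank k F = b)
    (S : Finset (IntermediateField F Ω))
    (hS : ∀ K ∈ S, ∀ K' ∈ S, Nonempty (K ≃ₐ[F] K') → K = K') (K : IntermediateField F Ω) :
    (S.filter (fun K' : IntermediateField F Ω =>
      Nonempty ((K.restrictScalars k) ≃ₐ[k] (K'.restrictScalars k)))).card ≤ b := by
  have : Module.Finite k F := Module.Finite.of_restrictScalars_finite ℚ k F
  set W := S.filter (fun K' : IntermediateField F Ω =>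
      Nonempty ((K.restrictScalars k) ≃ₐ[k] (K'.restrictScalars k))) with hW
  have hex : ∀ K' : W, ∃ (ψ : (K.restrictScalars k) ≃ₐ[k] ((K' : IntermediateField F Ω).restrictScalars k))
      (φ : F →ₐ[k] Ω), ∀ x : F,
      ((ψ.symm ⟨algebraMap F Ω x, (K' : IntermediateField F Ω).algebraMap_mem x⟩ :
        K.restrictScalars k) : Ω) = φ x := by
    rintro ⟨K', hK'⟩
    obtain ⟨ψ⟩ := (Finset.mem_filter.mp hK').2
    exact ⟨ψ, rel10_emb k F Ω K K' ψ⟩
  choose ψ φ hφ using hex
  have hinj : Function.Injective φ := by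
    rintro ⟨K', hK'⟩ ⟨K'', hK''⟩ h
    apply Subtype.ext
    refine hS K' (Finset.mem_filter.mp hK').1 K'' (Finset.mem_filter.mp hK'').1 ?_
    refine rel10_iso k F Ω K K' K'' (ψ ⟨K', hK'⟩) (ψ ⟨K'', hK''⟩) ?_
    intro x
    apply Subtype.ext
    rw [hφ ⟨K', hK'⟩ x, hφ ⟨K'', hK''⟩ x, h]
  calc W.card = Nat.card W := by rw [Nat.card_eq_fintype_card, Fintype.card_coe]
    _ ≤ Nat.card (F →ₐ[k] Ω) := Nat.card_le_card_of_injective φ hinj
    _ ≤ b := by
      rw [← hb]
      exact card_algHom_le_finrank k F Ω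

end

end Pool.Agent.H41.Rel
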