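import Mathlib

/-!
# REL-15: representatives of an equivalence relation on a finite set
-/

set_option autoImplicit false

namespace Pool.Agent.H41.Rel

open scoped Classical in
theorem exists_reps {ι : Type*} (S : Finset ι) (r : ι → ι → Prop) (hr : Equivalence r) :
    ∃ R ⊆ S, (∀ x ∈ S, ∃ y ∈ R, r x y) ∧ (∀ x ∈ R, ∀ y ∈ R, r x y → x = y) := by
  induction S using Finset.induction_on with
  | empty => exact ⟨∅, Finset.Subset.refl _, by simp, by simp⟩
  | insert a S _ ih =>
    obtain ⟨R, hRS, h1, h2⟩ := ih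
    by_cases h : ∃ y ∈ R, r a y
    · refine ⟨R, hRS.trans (Finset.subset_insert _ _), fun x hx => ?_, h2⟩
      rcases Finset.mem_insert.mp hx with rfl | hx
      · exact h
      · exact h1 x hx
    · have h' : ∀ y ∈ R, ¬ r a y := fun y hy hay => h ⟨y, hy, hay⟩
      refine ⟨insert a R, Finset.insert_subset_insert a hRS, fun x hx => ?_, fun x hx y hy hxy => ?_⟩
      · rcases Finset.mem_insert.mp hx with rfl | hx
        · exact ⟨x, Finset.mem_insert_self _ _, hr.refl x⟩
        · obtain ⟨y, hy, hxy⟩ := h1 x hx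
          exact ⟨y, Finset.mem_insert_of_mem hy, hxy⟩
      · rcases Finset.mem_insert.mp hx with hx1 | hx1
        · rcases Finset.mem_insert.mp hy with hy1 | hy1
          · rw [hx1, hy1]
          · exact absurd (hx1 ▸ hxy) (h' y hy1)
        · rcases Finset.mem_insert.mp hy with hy1 | hy1
          · exact absurd (hr.symm (hy1 ▸ hxy)) (h' x hx1)
          · exact h2 x hx1 y hy1 hxy

open scoped Classical in
theorem card_le_reps {ι : Type*} (S : Finset ι) (r : ι → ι → Prop) (hr : Equivalence r) (m m' : ℕ)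
    (hm : ∀ x ∈ S, (S.filter (fun y => r x y)).card ≤ m)
    (hm' : ∀ R ⊆ S, (∀ x ∈ R, ∀ y ∈ R, r x y → x = y) → R.card ≤ m') :
    S.card ≤ m * m' := by
  obtain ⟨R, hRS, h1, h2⟩ := exists_reps S r hr
  have hcov : S ⊆ R.biUnion (fun y => S.filter (fun z => r y z)) := by
    intro x hx
    obtain ⟨y, hy, hxy⟩ := h1 x hx
    exact Finset.mem_biUnion.mpr ⟨y, hy, Finset.mem_filter.mpr ⟨hx, hr.symm hxy⟩⟩
  calc S.card ≤ (R.biUnion (fun y => S.filter (fun z => r y z))).card := Finset.card_le_card hcov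
    _ ≤ ∑ y ∈ R, (S.filter (fun z => r y z)).card := Finset.card_biUnion_le
    _ ≤ ∑ _y ∈ R, m := Finset.sum_le_sum fun y hy => hm y (hRS hy)
    _ = m * R.card := by rw [Finset.sum_const, smul_eq_mul, mul_comm]
    _ ≤ m * m' := Nat.mul_le_mul_left m (hm' R hRS h2)

end Pool.Agent.H41.Rel
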