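import Pool.Agent.H41.Rel.Defs

/-!
# Project RG (MP_a3214d), REL-9: the numbering of the embeddings of `K / k`
-/

set_option autoImplicit false

open NumberField IsDedekindDomain Polynomial Pool.Agent.H35.AN

namespace Pool.Agent.H41.Rel

section

variable (k F Ω : Type) [Field k] [NumberField k] [Field F] [NumberField F] [Field Ω]
  [Algebra k F] [Algebra k Ω] [Algebra F Ω] [IsScalarTower k F Ω] [IsAlgClosure F Ω]

/-! ### REL-9 Wreath.lean : the numbering of the embeddings of `K / k` -/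

theorem exists_lift (φ : F →ₐ[k] Ω) : ∃ s : Ω ≃ₐ[k] Ω, ∀ x : F, s (algebraMap F Ω x) = φ x := by
  haveI : IsAlgClosed Ω := IsAlgClosure.isAlgClosed F
  haveI : Algebra.IsAlgebraic F Ω := IsAlgClosure.isAlgebraic
  haveI : CharZero Ω := charZero_of_injective_algebraMap (algebraMap F Ω).injective
  haveI : Algebra.IsAlgebraic k F := by
    haveI : FiniteDimensional k F := by
      haveI : IsScalarTower ℚ k F := inferInstance
      exact FiniteDimensional.right ℚ k F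
    infer_instance
  haveI : Algebra.IsAlgebraic k Ω := Algebra.IsAlgebraic.trans k F Ω
  haveI : IsAlgClosure k Ω := ⟨inferInstance, inferInstance⟩
  haveI : Normal k Ω := inferInstance
  have hb : Function.Bijective (φ.liftNormal Ω) := Algebra.IsAlgebraic.algHom_bijective _
  refine ⟨AlgEquiv.ofBijective (φ.liftNormal Ω) hb, fun x => ?_⟩
  exact φ.liftNormal_commutes Ω x

variable {k F Ω}

/-- the embedding of `K` over `k` given by `s` and an embedding over `F` -/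
def rel9_mk (K : IntermediateField F Ω) (s : Ω ≃ₐ[k] Ω) (ψ : K →ₐ[F] Ω) :
    (K.restrictScalars k) →ₐ[k] Ω where
  toFun x := s (ψ ⟨x.1, x.2⟩)
  map_one' := by
    have : (⟨(1 : K.restrictScalars k).1, (1 : K.restrictScalars k).2⟩ : K) = 1 := rfl
    rw [this, map_one, map_one]
  map_mul' x y := by
    have : (⟨(x * y : K.restrictScalars k).1, (x * y : K.restrictScalars k).2⟩ : K)
      = ⟨x.1, x.2⟩ * ⟨y.1, y.2⟩ := rfl
    rw [this, map_mul, map_mul]
  map_zero' := by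
    have : (⟨(0 : K.restrictScalars k).1, (0 : K.restrictScalars k).2⟩ : K) = 0 := rfl
    rw [this, map_zero, map_zero]
  map_add' x y := by
    have : (⟨(x + y : K.restrictScalars k).1, (x + y : K.restrictScalars k).2⟩ : K)
      = ⟨x.1, x.2⟩ + ⟨y.1, y.2⟩ := rfl
    rw [this, map_add, map_add]
  commutes' c := by
    have : (⟨(algebraMap k (K.restrictScalars k) c).1,
        (algebraMap k (K.restrictScalars k) c).2⟩ : K) = algebraMap F K (algebraMap k F c) := by
      apply Subtype.ext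
      change algebraMap k Ω c = algebraMap F Ω (algebraMap k F c)
      exact IsScalarTower.algebraMap_apply k F Ω c
    rw [this, AlgHom.commutes, ← IsScalarTower.algebraMap_apply k F Ω c, AlgEquiv.commutes]

theorem rel9_mk_apply (K : IntermediateField F Ω) (s : Ω ≃ₐ[k] Ω) (ψ : K →ₐ[F] Ω)
    (x : K.restrictScalars k) : rel9_mk K s ψ x = s (ψ ⟨x.1, x.2⟩) := rfl

/-- restriction of an embedding of `K` to `F` -/
def rel9_res (K : IntermediateField F Ω) (φ : (K.restrictScalars k) →ₐ[k] Ω) : F →ₐ[k] Ω where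
  toFun x := φ ⟨algebraMap F Ω x, K.algebraMap_mem x⟩
  map_one' := by
    have : (⟨algebraMap F Ω 1, K.algebraMap_mem 1⟩ : K.restrictScalars k) = 1 :=
      Subtype.ext (map_one _)
    rw [this, map_one]
  map_mul' x y := by
    have : (⟨algebraMap F Ω (x * y), K.algebraMap_mem (x * y)⟩ : K.restrictScalars k)
      = ⟨algebraMap F Ω x, K.algebraMap_mem x⟩ * ⟨algebraMap F Ω y, K.algebraMap_mem y⟩ :=
      Subtype.ext (map_mul _ _ _)
    rw [this, map_mul]
  map_zero' := by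
    have : (⟨algebraMap F Ω 0, K.algebraMap_mem 0⟩ : K.restrictScalars k) = 0 :=
      Subtype.ext (map_zero _)
    rw [this, map_zero]
  map_add' x y := by
    have : (⟨algebraMap F Ω (x + y), K.algebraMap_mem (x + y)⟩ : K.restrictScalars k)
      = ⟨algebraMap F Ω x, K.algebraMap_mem x⟩ + ⟨algebraMap F Ω y, K.algebraMap_mem y⟩ :=
      Subtype.ext (map_add _ _ _)
    rw [this, map_add]
  commutes' c := by
    have : (⟨algebraMap F Ω (algebraMap k F c), K.algebraMap_mem _⟩ : K.restrictScalars k)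
      = algebraMap k (K.restrictScalars k) c :=
      Subtype.ext (IsScalarTower.algebraMap_apply k F Ω c).symm
    rw [this, AlgHom.commutes]

theorem rel9_res_apply (K : IntermediateField F Ω) (φ : (K.restrictScalars k) →ₐ[k] Ω) (x : F) :
    rel9_res K φ x = φ ⟨algebraMap F Ω x, K.algebraMap_mem x⟩ := rfl

/-- the embedding over `F` obtained from an embedding over `k` which agrees with `s` on `F` -/
def rel9_un (K : IntermediateField F Ω) (s : Ω ≃ₐ[k] Ω) (φ : (K.restrictScalars k) →ₐ[k] Ω)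
    (h : ∀ x : F, s (algebraMap F Ω x) = rel9_res K φ x) : K →ₐ[F] Ω where
  toFun x := s.symm (φ ⟨x.1, x.2⟩)
  map_one' := by
    have : (⟨(1 : K).1, (1 : K).2⟩ : K.restrictScalars k) = 1 := rfl
    rw [this, map_one, map_one]
  map_mul' x y := by
    have : (⟨(x * y : K).1, (x * y : K).2⟩ : K.restrictScalars k)
      = ⟨x.1, x.2⟩ * ⟨y.1, y.2⟩ := rfl
    rw [this, map_mul, map_mul]
  map_zero' := by
    have : (⟨(0 : K).1, (0 : K).2⟩ : K.restrictScalars k) = 0 := rfl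
    rw [this, map_zero, map_zero]
  map_add' x y := by
    have : (⟨(x + y : K).1, (x + y : K).2⟩ : K.restrictScalars k)
      = ⟨x.1, x.2⟩ + ⟨y.1, y.2⟩ := rfl
    rw [this, map_add, map_add]
  commutes' c := by
    have h1 : (⟨(algebraMap F K c).1, (algebraMap F K c).2⟩ : K.restrictScalars k)
      = ⟨algebraMap F Ω c, K.algebraMap_mem c⟩ := rfl
    rw [h1, ← rel9_res_apply, ← h, AlgEquiv.symm_apply_apply]

theorem rel9_un_apply (K : IntermediateField F Ω) (s : Ω ≃ₐ[k] Ω)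
    (φ : (K.restrictScalars k) →ₐ[k] Ω)
    (h : ∀ x : F, s (algebraMap F Ω x) = rel9_res K φ x) (x : K) :
    rel9_un K s φ h x = s.symm (φ ⟨x.1, x.2⟩) := rfl

theorem rel9_res_mk (K : IntermediateField F Ω) (s : Ω ≃ₐ[k] Ω) (ψ : K →ₐ[F] Ω) (x : F) :
    rel9_res K (rel9_mk K s ψ) x = s (algebraMap F Ω x) := by
  rw [rel9_res_apply, rel9_mk_apply]
  have h1 : (⟨algebraMap F Ω x, K.algebraMap_mem x⟩ : K) = algebraMap F K x := rfl
  change s (ψ (⟨algebraMap F Ω x, K.algebraMap_mem x⟩ : K)) = _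
  rw [h1, AlgHom.commutes]

theorem rel9_mk_un (K : IntermediateField F Ω) (s : Ω ≃ₐ[k] Ω)
    (φ : (K.restrictScalars k) →ₐ[k] Ω)
    (h : ∀ x : F, s (algebraMap F Ω x) = rel9_res K φ x) :
    rel9_mk K s (rel9_un K s φ h) = φ := by
  ext x
  rw [rel9_mk_apply, rel9_un_apply, AlgEquiv.apply_symm_apply]

theorem rel9_un_mk (K : IntermediateField F Ω) (s : Ω ≃ₐ[k] Ω) (ψ : K →ₐ[F] Ω)
    (h : ∀ x : F, s (algebraMap F Ω x) = rel9_res K (rel9_mk K s ψ) x) :
    rel9_un K s (rel9_mk K s ψ) h = ψ := by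
  ext x
  rw [rel9_un_apply, rel9_mk_apply, AlgEquiv.symm_apply_apply]

theorem rel9_res_mk' (K : IntermediateField F Ω) (s : Ω ≃ₐ[k] Ω) (θ : F →ₐ[k] Ω)
    (hs : ∀ x : F, s (algebraMap F Ω x) = θ x) (ψ : K →ₐ[F] Ω) :
    rel9_res K (rel9_mk K s ψ) = θ := by
  ext x
  rw [rel9_res_mk, hs]

/-- the numbering -/
theorem rel9_numbering {b n N : ℕ} (ε : Fin b × Fin n ≃ Fin N) (eF : (F →ₐ[k] Ω) ≃ Fin b)
    (s : Fin b → (Ω ≃ₐ[k] Ω)) (hs : ∀ i (x : F), s i (algebraMap F Ω x) = (eF.symm i) x)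
    (K : IntermediateField F Ω) (eK : (K →ₐ[F] Ω) ≃ Fin n) :
    ∃ e : ((K.restrictScalars k) →ₐ[k] Ω) ≃ Fin N,
      ∀ i (ψ : K →ₐ[F] Ω), e (rel9_mk K (s i) ψ) = ε (i, eK ψ) := by
  have hag : ∀ (φ : (K.restrictScalars k) →ₐ[k] Ω) (x : F),
      s (eF (rel9_res K φ)) (algebraMap F Ω x) = rel9_res K φ x := by
    intro φ x
    rw [hs, Equiv.symm_apply_apply]
  have hres : ∀ i (ψ : K →ₐ[F] Ω), eF (rel9_res K (rel9_mk K (s i) ψ)) = i := by
    intro i ψ
    rw [rel9_res_mk' K (s i) (eF.symm i) (hs i) ψ, Equiv.apply_symm_apply]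
  have hun : ∀ i (ψ : K →ₐ[F] Ω),
      rel9_un K (s (eF (rel9_res K (rel9_mk K (s i) ψ)))) (rel9_mk K (s i) ψ) (hag _) = ψ := by
    intro i ψ
    have key : ∀ j (hj : j = i) (h : ∀ x : F, s j (algebraMap F Ω x)
        = rel9_res K (rel9_mk K (s i) ψ) x), rel9_un K (s j) (rel9_mk K (s i) ψ) h = ψ := by
      intro j hj
      subst hj
      intro h
      exact rel9_un_mk K (s j) ψ h
    exact key _ (hres i ψ) _
  let e₀ : ((K.restrictScalars k) →ₐ[k] Ω) ≃ Fin b × Fin n :=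
    { toFun := fun φ => (eF (rel9_res K φ), eK (rel9_un K (s (eF (rel9_res K φ))) φ (hag φ)))
      invFun := fun p => rel9_mk K (s p.1) (eK.symm p.2)
      left_inv := by
        intro φ
        change rel9_mk K (s (eF (rel9_res K φ))) (eK.symm (eK (rel9_un K _ φ (hag φ)))) = φ
        rw [Equiv.symm_apply_apply, rel9_mk_un]
      right_inv := by
        rintro ⟨i, j⟩
        apply Prod.ext
        · exact hres i _
        · change eK (rel9_un K (s (eF (rel9_res K (rel9_mk K (s i) (eK.symm j)))))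
            (rel9_mk K (s i) (eK.symm j)) (hag _)) = j
          rw [hun, Equiv.apply_symm_apply] }
  refine ⟨e₀.trans ε, fun i ψ => ?_⟩
  change ε (eF (rel9_res K (rel9_mk K (s i) ψ)),
    eK (rel9_un K (s (eF (rel9_res K (rel9_mk K (s i) ψ)))) (rel9_mk K (s i) ψ) (hag _))) = _
  rw [hun, hres]

/-- the automorphism over `F` attached to `σ` and the `i`-th coset -/
theorem rel9_cocycle (s s' σ : Ω ≃ₐ[k] Ω)
    (h : ∀ x : F, σ (s (algebraMap F Ω x)) = s' (algebraMap F Ω x)) :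
    ∃ c : Ω ≃ₐ[F] Ω, ∀ y, σ (s y) = s' (c y) := by
  let c₀ : Ω ≃ₐ[k] Ω := (s.trans σ).trans s'.symm
  refine ⟨AlgEquiv.ofRingEquiv (f := c₀.toRingEquiv) ?_, fun y => ?_⟩
  · intro x
    change s'.symm (σ (s (algebraMap F Ω x))) = algebraMap F Ω x
    rw [h, AlgEquiv.symm_apply_apply]
  · change σ (s y) = s' (s'.symm (σ (s y)))
    rw [AlgEquiv.apply_symm_apply]

theorem rel9_comp_mk (K : IntermediateField F Ω) (s s' σ : Ω ≃ₐ[k] Ω) (c : Ω ≃ₐ[F] Ω)
    (h : ∀ y, σ (s y) = s' (c y)) (ψ : K →ₐ[F] Ω) :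
    σ.toAlgHom.comp (rel9_mk K s ψ) = rel9_mk K s' (c.toAlgHom.comp ψ) := by
  ext x
  change σ (s (ψ ⟨x.1, x.2⟩)) = s' (c (ψ ⟨x.1, x.2⟩))
  exact h _

variable (k F Ω)

theorem hasGroup_wreath {b n N : ℕ} (ε : Fin b × Fin n ≃ Fin N)
    (P : Subgroup (Equiv.Perm (Fin n))) (H : Subgroup (Equiv.Perm (Fin b)))
    (eF : (F →ₐ[k] Ω) ≃ Fin b)
    (hH : ∀ η : Equiv.Perm (Fin b), η ∈ H ↔
      ∃ σ : Ω ≃ₐ[k] Ω, ∀ φ : F →ₐ[k] Ω, eF (σ.toAlgHom.comp φ) = η (eF φ))
    (s : Fin b → (Ω ≃ₐ[k] Ω)) (hs : ∀ i (x : F), s i (algebraMap F Ω x) = (eF.symm i) x)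
    (K : IntermediateField F Ω) (eK : (K →ₐ[F] Ω) ≃ Fin n)
    (hP : ∀ τ : Ω ≃ₐ[F] Ω, ∃ p ∈ P, ∀ φ : K →ₐ[F] Ω, eK (τ.toAlgHom.comp φ) = p (eK φ))
    (hfull : ∀ γ : Fin b → Equiv.Perm (Fin n), (∀ i, γ i ∈ P) →
      ∃ (σ : Ω ≃ₐ[k] Ω) (τ : Fin b → (Ω ≃ₐ[F] Ω)), (∀ i y, σ (s i y) = s i (τ i y)) ∧
        ∀ i (φ : K →ₐ[F] Ω), eK ((τ i).toAlgHom.comp φ) = γ i (eK φ)) :
    HasGroup k Ω (K.restrictScalars k) (wreath ε P H) := by
  obtain ⟨e, he⟩ := rel9_numbering ε eF s hs K eK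
  -- every `σ` acts on the classes
  have hcoc : ∀ (σ : Ω ≃ₐ[k] Ω) (η : Equiv.Perm (Fin b)),
      (∀ φ : F →ₐ[k] Ω, eF (σ.toAlgHom.comp φ) = η (eF φ)) →
      ∀ i, ∃ c : Ω ≃ₐ[F] Ω, ∀ y, σ (s i y) = s (η i) (c y) := by
    intro σ η hη i
    apply rel9_cocycle
    intro x
    rw [hs, hs]
    have h1 := hη (eF.symm i)
    rw [Equiv.apply_symm_apply] at h1
    rw [← h1, Equiv.symm_apply_apply]
    rfl
  refine ⟨e, fun π => ⟨?_, ?_⟩⟩
  · rintro ⟨η, hη, γ, hγ, hπ⟩
    obtain ⟨σ₀, hσ₀⟩ := (hH η).1 hη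
    choose c hc using hcoc σ₀ η hσ₀
    choose p hpP hp using fun i => hP (c i)
    obtain ⟨σ₁, τ, hτ, hτK⟩ := hfull (fun i => (p i)⁻¹ * γ i)
      (fun i => mul_mem (inv_mem (hpP i)) (hγ i))
    refine ⟨σ₁.trans σ₀, fun φ => ?_⟩
    -- write `φ` in the form `s i ψ`
    obtain ⟨⟨i, j⟩, hij⟩ := ε.surjective (e φ)
    have hφ : φ = rel9_mk K (s i) (eK.symm j) := by
      apply e.injective
      rw [he, Equiv.apply_symm_apply, hij]
    rw [hφ]
    have h1 : ∀ y, (σ₁.trans σ₀) (s i y) = s (η i) (((τ i).trans (c i)) y) := by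
      intro y
      change σ₀ (σ₁ (s i y)) = s (η i) (c i (τ i y))
      rw [hτ, hc]
    rw [rel9_comp_mk K (s i) (s (η i)) (σ₁.trans σ₀) ((τ i).trans (c i)) h1, he, he, hπ,
      Equiv.apply_symm_apply]
    congr 2
    have h2 : ((τ i).trans (c i)).toAlgHom.comp (eK.symm j)
        = (c i).toAlgHom.comp ((τ i).toAlgHom.comp (eK.symm j)) := rfl
    rw [h2, hp, hτK, Equiv.apply_symm_apply]
    simp
  · rintro ⟨σ, hσ⟩
    -- the permutation of the embeddings of `F`
    let η : Equiv.Perm (Fin b) :=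
      { toFun := fun i => eF (σ.toAlgHom.comp (eF.symm i))
        invFun := fun i => eF (σ.symm.toAlgHom.comp (eF.symm i))
        left_inv := by
          intro i
          change eF (σ.symm.toAlgHom.comp (eF.symm (eF (σ.toAlgHom.comp (eF.symm i))))) = i
          rw [Equiv.symm_apply_apply]
          have : σ.symm.toAlgHom.comp (σ.toAlgHom.comp (eF.symm i)) = eF.symm i := by
            ext x
            change σ.symm (σ (eF.symm i x)) = _
            rw [AlgEquiv.symm_apply_apply]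
          rw [this, Equiv.apply_symm_apply]
        right_inv := by
          intro i
          change eF (σ.toAlgHom.comp (eF.symm (eF (σ.symm.toAlgHom.comp (eF.symm i))))) = i
          rw [Equiv.symm_apply_apply]
          have : σ.toAlgHom.comp (σ.symm.toAlgHom.comp (eF.symm i)) = eF.symm i := by
            ext x
            change σ (σ.symm (eF.symm i x)) = _
            rw [AlgEquiv.apply_symm_apply]
          rw [this, Equiv.apply_symm_apply] }
    have hη : ∀ φ : F →ₐ[k] Ω, eF (σ.toAlgHom.comp φ) = η (eF φ) := by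
      intro φ
      change _ = eF (σ.toAlgHom.comp (eF.symm (eF φ)))
      rw [Equiv.symm_apply_apply]
    choose c hc using hcoc σ η hη
    choose p hpP hp using fun i => hP (c i)
    refine ⟨η, (hH η).2 ⟨σ, hη⟩, p, hpP, fun i j => ?_⟩
    have h1 := hσ (rel9_mk K (s i) (eK.symm j))
    rw [rel9_comp_mk K (s i) (s (η i)) σ (c i) (hc i), he, he, hp, Equiv.apply_symm_apply] at h1
    exact h1.symm

end

end Pool.Agent.H41.Rel
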