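import Pool.Agent.H13.RG.Disc
import Pool.Agent.H41.Rel.Reps
import Pool.Agent.H13.RG.Global
import Pool.Agent.H13.RG.Level
import Pool.Agent.H13.RG.Regular
import Pool.Agent.H41.Rel.Mult
import Pool.Agent.H41.Rel.Wreath
import Pool.Agent.H41.Rel.Count
import Pool.Agent.H41.Rel.Level
import Pool.Agent.H13.RG.Iso
import Pool.Agent.H13.RG.Basic

/-!
# Project RG (MP_a3214d), REL-16: the relative version of the main theorem
-/

set_option autoImplicit false

open MvPolynomial NumberField IsDedekindDomain Pool.Agent.H13.RG Pool.Agent.H35.AN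

namespace Pool.Agent.H41.Rel

section

variable {k F Ω : Type} [Field k] [NumberField k] [Field F] [NumberField F] [Field Ω]
  [Algebra k F] [Algebra k Ω] [Algebra F Ω] [IsScalarTower k F Ω] [IsAlgClosure F Ω]
  {s n b N : ℕ} {G : Type} [Group G] [Fintype G]

omit [NumberField F] [IsAlgClosure F Ω] in
/-- a point with non-vanishing determinant is not zero -/
theorem rel16_ne_zero (X : Core F s n G) {x : Fin s → Ω}
    (hx : eval₂ (iO F Ω X.N) x (Matrix.of X.W).det ≠ 0) : x ≠ 0 := by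
  intro h0
  apply hx
  have hhom : ((Matrix.of X.W).det).IsHomogeneous (∑ j, X.c j) := by
    rw [Matrix.det_apply]
    apply IsHomogeneous.sum
    intro σ _
    have h1 : (∏ i, (Matrix.of X.W) (σ i) i).IsHomogeneous (∑ j, X.c j) :=
      IsHomogeneous.prod _ _ _ (fun i _ => X.W_hom (σ i) i)
    rcases Int.units_eq_one_or (Equiv.Perm.sign σ) with h | h
    · rw [h, one_smul]
      exact h1
    · rw [h, Units.neg_smul, one_smul]
      exact h1.neg
  have h2 := eval_smul hhom (iO F Ω X.N) 0 x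
  rw [zero_pow X.c_pos.ne', zero_mul, zero_smul] at h2
  rw [h0]
  exact h2

omit [Fintype G] in
/-- the group of the field attached to a homomorphism -/
theorem rel16_hasGroup (ε : Fin b × Fin n ≃ Fin N) (H : Subgroup (Equiv.Perm (Fin b)))
    (eF : (F →ₐ[k] Ω) ≃ Fin b)
    (hH : ∀ η : Equiv.Perm (Fin b), η ∈ H ↔
      ∃ σ : Ω ≃ₐ[k] Ω, ∀ φ : F →ₐ[k] Ω, eF (σ.toAlgHom.comp φ) = η (eF φ))
    (t : Fin b → (Ω ≃ₐ[k] Ω)) (ht : ∀ i (x : F), t i (algebraMap F Ω x) = (eF.symm i) x)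
    (π : G →* Equiv.Perm (Fin n)) (h : (Ω ≃ₐ[F] Ω) →* G)
    (hfull : ∀ γ : Fin b → G, ∃ (σ : Ω ≃ₐ[k] Ω) (τ : Fin b → (Ω ≃ₐ[F] Ω)),
      (∀ i y, σ (t i y) = t i (τ i y)) ∧ ∀ i, h (τ i) = γ i)
    (K : IntermediateField F Ω) (e : (K →ₐ[F] Ω) ≃ Fin n)
    (he : ∀ (σ : Ω ≃ₐ[F] Ω) (φ : K →ₐ[F] Ω), e (σ.toAlgHom.comp φ) = π (h σ) (e φ)) :
    HasGroup k Ω (K.restrictScalars k) (wreath ε π.range H) := by
  refine hasGroup_wreath k F Ω ε π.range H eF hH t ht K e ?_ ?_
  · intro τ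
    exact ⟨π (h τ), ⟨h τ, rfl⟩, fun φ => he τ φ⟩
  · intro γ hγ
    choose g hg using hγ
    obtain ⟨σ, τ, h1, h2⟩ := hfull g
    refine ⟨σ, τ, h1, fun i φ => ?_⟩
    rw [he, h2, hg]

open scoped Classical in
/-- the number of homomorphisms is bounded by the number of fields -/
theorem rel16_count (hb : Module.finrank k F = b) (hN : N = b * n)
    (ε : Fin b × Fin n ≃ Fin N) (H : Subgroup (Equiv.Perm (Fin b)))
    (π : G →* Equiv.Perm (Fin n)) (hπ : Function.Injective π) (B : ℝ)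
    (S : Finset ((Ω ≃ₐ[F] Ω) →* G))
    (hS : ∀ h ∈ S, ∃ (K : IntermediateField F Ω) (_ : NumberField K)
      (e : (K →ₐ[F] Ω) ≃ Fin n), Module.finrank F K = n ∧
        (∀ (σ : Ω ≃ₐ[F] Ω) (φ : K →ₐ[F] Ω), e (σ.toAlgHom.comp φ) = π (h σ) (e φ)) ∧
        HasGroup k Ω (K.restrictScalars k) (wreath ε π.range H) ∧
        |(NumberField.discr K : ℝ)| ≤ B) :
    (S.card : ℝ) ≤ (n.factorial * b : ℕ) *
      malleCount k N (wreath ε π.range H) B := by
  rcases S.eq_empty_or_nonempty with hempty | ⟨h0, hh0⟩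
  · rw [hempty, Finset.card_empty, Nat.cast_zero]
    positivity
  have hclk : IsAlgClosure k Ω := by
    have h1 : Algebra.IsAlgebraic F Ω := IsAlgClosure.isAlgebraic
    have h2 : Algebra.IsAlgebraic k F := by
      have : Module.Finite k F := Module.Finite.of_restrictScalars_finite ℚ k F
      infer_instance
    exact ⟨IsAlgClosure.isAlgClosed F, Algebra.IsAlgebraic.trans k F Ω⟩
  -- total choice of the fields
  have hex : ∀ h : (Ω ≃ₐ[F] Ω) →* G, ∃ (K : IntermediateField F Ω) (e : (K →ₐ[F] Ω) ≃ Fin n),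
      h ∈ S → ∃ _ : NumberField K, Module.finrank F K = n ∧
        (∀ (σ : Ω ≃ₐ[F] Ω) (φ : K →ₐ[F] Ω), e (σ.toAlgHom.comp φ) = π (h σ) (e φ)) ∧
        HasGroup k Ω (K.restrictScalars k) (wreath ε π.range H) ∧
        |(NumberField.discr K : ℝ)| ≤ B := by
    intro h
    by_cases hh : h ∈ S
    · obtain ⟨K, hK, e, h1⟩ := hS h hh
      exact ⟨K, e, fun _ => ⟨hK, h1⟩⟩
    · obtain ⟨K, hK, e, h1⟩ := hS h0 hh0
      exact ⟨K, e, fun h2 => absurd h2 hh⟩
  choose K e hKe using hex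
  -- the two equivalence relations
  let rk : ((Ω ≃ₐ[F] Ω) →* G) → ((Ω ≃ₐ[F] Ω) →* G) → Prop := fun h h' =>
    Nonempty (((K h).restrictScalars k) ≃ₐ[k] ((K h').restrictScalars k))
  let rF : ((Ω ≃ₐ[F] Ω) →* G) → ((Ω ≃ₐ[F] Ω) →* G) → Prop := fun h h' =>
    Nonempty ((K h) ≃ₐ[F] (K h'))
  have hrk : Equivalence rk :=
    ⟨fun _ => ⟨AlgEquiv.refl⟩, fun ⟨e⟩ => ⟨e.symm⟩, fun ⟨e⟩ ⟨f⟩ => ⟨e.trans f⟩⟩
  have hrF : Equivalence rF :=
    ⟨fun _ => ⟨AlgEquiv.refl⟩, fun ⟨e⟩ => ⟨e.symm⟩, fun ⟨e⟩ ⟨f⟩ => ⟨e.trans f⟩⟩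
  -- the classes over `k`
  have hclass : ∀ h ∈ S, (S.filter (fun h' => rk h h')).card ≤ n.factorial * b := by
    intro h hh
    refine card_le_reps _ rF hrF _ _ ?_ ?_
    · intro h' hh'
      refine card_le_of_iso π hπ _ K e ?_ (K h') ?_
      · intro h'' hh''
        have hm := (Finset.mem_filter.mp (Finset.mem_filter.mp hh'').1).1
        obtain ⟨_, _, h1, _⟩ := hKe h'' hm
        exact h1
      · intro h'' hh''
        obtain ⟨ψ⟩ := (Finset.mem_filter.mp hh'').2
        exact ⟨ψ.symm⟩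
    · intro R hR hRr
      have hinj : Set.InjOn K (R : Set ((Ω ≃ₐ[F] Ω) →* G)) := by
        intro x hx y hy hxy
        refine hRr x hx y hy ?_
        change Nonempty ((K x) ≃ₐ[F] (K y))
        rw [hxy]
        exact ⟨AlgEquiv.refl⟩
      have h1 := card_class_le k F Ω hb (R.image K) (by
        intro L hL L' hL' hLL
        obtain ⟨x, hx, rfl⟩ := Finset.mem_image.mp hL
        obtain ⟨y, hy, rfl⟩ := Finset.mem_image.mp hL'
        rw [hRr x hx y hy hLL]) (K h)
      rw [Finset.filter_true_of_mem, Finset.card_image_of_injOn hinj] at h1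
      · exact h1
      · intro L hL
        obtain ⟨x, hx, rfl⟩ := Finset.mem_image.mp hL
        exact (Finset.mem_filter.mp (hR hx)).2
  -- the number of the classes over `k`
  have hmain : S.card ≤ (n.factorial * b) * malleCount k N (wreath ε π.range H) B := by
    refine card_le_reps _ rk hrk _ _ hclass ?_
    intro R hR hRr
    have hinj : Set.InjOn (fun h => (K h).restrictScalars k)
        (R : Set ((Ω ≃ₐ[F] Ω) →* G)) := by
      intro x hx y hy hxy
      refine hRr x hx y hy ?_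
      change Nonempty (((K x).restrictScalars k) ≃ₐ[k] ((K y).restrictScalars k))
      have hxy' : (K x).restrictScalars k = (K y).restrictScalars k := hxy
      rw [hxy']
      exact ⟨AlgEquiv.refl⟩
    have h1 := card_le_malleCount k Ω (wreath ε π.range H) B 1
      (R.image (fun h => (K h).restrictScalars k)) (by
        intro L hL
        obtain ⟨x, hx, rfl⟩ := Finset.mem_image.mp hL
        obtain ⟨hnf, h2, _, h3, h4⟩ := hKe x (hR hx)
        refine ⟨?_, h3, hnf, h4⟩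
        rw [hN, ← hb, ← h2]
        have : Module.Finite k F := Module.Finite.of_restrictScalars_finite ℚ k F
        exact (Module.finrank_mul_finrank k F (K x)).symm) (by
        intro L hL
        rw [Finset.card_le_one]
        intro L1 hL1 L2 hL2
        obtain ⟨hL1a, ψ1⟩ := Finset.mem_filter.mp hL1
        obtain ⟨hL2a, ψ2⟩ := Finset.mem_filter.mp hL2
        obtain ⟨x, hx, rfl⟩ := Finset.mem_image.mp hL1a
        obtain ⟨y, hy, rfl⟩ := Finset.mem_image.mp hL2a
        obtain ⟨ψ1⟩ := ψ1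
        obtain ⟨ψ2⟩ := ψ2
        rw [hRr x hx y hy ⟨ψ1.symm.trans ψ2⟩])
    rw [Finset.card_image_of_injOn hinj, Nat.cast_one, one_mul] at h1
    exact_mod_cast h1
  exact_mod_cast hmain

/-- the count at level `H` -/
theorem rel16_level (hb : 0 < b) (hn : 0 < n) (ε : Fin b × Fin n ≃ Fin N)
    (H : Subgroup (Equiv.Perm (Fin b))) (eF : (F →ₐ[k] Ω) ≃ Fin b)
    (hH : ∀ η : Equiv.Perm (Fin b), η ∈ H ↔
      ∃ σ : Ω ≃ₐ[k] Ω, ∀ φ : F →ₐ[k] Ω, eF (σ.toAlgHom.comp φ) = η (eF φ))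
    (X : Core F s n G) (hπ : Function.Injective X.π) :
    ∃ c D H0 : ℝ, 0 < c ∧ 0 < D ∧ ∀ T : ℝ, H0 ≤ T →
      c * T ^ (Module.finrank ℚ F * ∑ i, X.I.d i) ≤
        (malleCount k N (wreath ε X.π.range H)
          (D * T ^ (Module.finrank ℚ F * (2 * ∑ j, X.c j))) : ℝ) := by
  classical
  have hac : IsAlgClosed Ω := IsAlgClosure.isAlgClosed F
  have hchar : CharZero Ω := charZero_of_injective_algebraMap (algebraMap F Ω).injective
  have hfkF : Module.Finite k F := Module.Finite.of_restrictScalars_finite ℚ k F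
  have hbF : Module.finrank k F = b := by
    have h1 : Fintype.card (F →ₐ[k] Ω) = Module.finrank k F := AlgHom.card k F Ω
    rw [← h1, Fintype.card_congr eF, Fintype.card_fin]
  have hN : N = b * n := by
    have h1 := Fintype.card_congr ε
    rw [Fintype.card_prod, Fintype.card_fin, Fintype.card_fin, Fintype.card_fin] at h1
    exact h1.symm
  -- the lifts
  have hlift : ∀ i, ∃ t : Ω ≃ₐ[k] Ω, ∀ x : F, t (algebraMap F Ω x) = (eF.symm i) x :=
    fun i => exists_lift k F Ω (eF.symm i)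
  choose t ht using hlift
  have htinj : ∀ i j, (∀ x : F, t i (algebraMap F Ω x) = t j (algebraMap F Ω x)) → i = j := by
    intro i j hij
    apply eF.symm.injective
    apply AlgHom.ext
    intro x
    rw [← ht, ← ht, hij]
  obtain ⟨M, α, hM, hfull⟩ := exists_full_rel t htinj X
  -- uniqueness of the homomorphism of a solution
  have hFull : Full Ω X M α := by
    intro u hu x hx
    obtain ⟨hdet, h, hh, hγ⟩ := hfull u hu x hx
    refine ⟨hdet, h, ?_, hh⟩
    intro g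
    obtain ⟨_, τ, _, h2⟩ := hγ (fun _ => g)
    exact ⟨τ ⟨0, hb⟩, h2 _⟩
  obtain ⟨c, H0, hc, hH0, hlev⟩ := level (Ω := Ω) X M hM α hFull
  obtain ⟨C, hC, hdisc⟩ := field_disc X hn M α hFull
  have hm : (0 : ℝ) < ((n.factorial * b : ℕ) : ℝ) := by
    have := Nat.factorial_pos n
    positivity
  refine ⟨c / ((n.factorial * b : ℕ) : ℝ), C, H0, by positivity, hC, ?_⟩
  intro T hT
  obtain ⟨hfin, hcard⟩ := hlev T hT
  have h1 := rel16_count (k := k) hbF hN ε H X.π hπ
    (C * T ^ (Module.finrank ℚ F * (2 * ∑ j, X.c j))) hfin.toFinset (by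
      intro h hh
      rw [Set.Finite.mem_toFinset] at hh
      obtain ⟨K, hnf, e, h2, h3, h4⟩ := hdisc T (hH0.trans hT) h hh
      refine ⟨K, hnf, e, h2, h3, ?_, h4⟩
      obtain ⟨hsurj, u, hu, x, hx, htw⟩ := hh
      obtain ⟨hdet, h', hh', hγ⟩ := hfull u (fun i => (hu i).1) x hx
      have heq : h = h' := hom_unique X hsurj htw hh' (rel16_ne_zero X hdet)
      subst heq
      exact rel16_hasGroup ε H eF hH t ht X.π h hγ K e h3)
  rw [Set.ncard_eq_toFinset_card _ hfin] at hcard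
  rw [div_mul_eq_mul_div, div_le_iff₀ hm, mul_comm _ ((n.factorial * b : ℕ) : ℝ)]
  exact hcard.trans h1

end

/-- REL-16: the relative version for a system of data -/
theorem rel_core_main (k F : Type) [Field k] [NumberField k] [Field F] [NumberField F]
    [Algebra k F] {s n b N : ℕ} (hn : 2 ≤ n) (ε : Fin b × Fin n ≃ Fin N)
    (H : Subgroup (Equiv.Perm (Fin b))) (hF : HasGroup k (AlgebraicClosure k) F H)
    {G : Type} [Group G] [Fintype G] (X : Core F s n G) (hπ : Function.Injective X.π) :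
    ∃ c : ℝ, 0 < c ∧ ∀ᶠ B : ℝ in Filter.atTop,
      c * B ^ (((∑ i, X.I.d i : ℕ) : ℝ) / ((2 * ∑ j, X.c j : ℕ) : ℝ)) ≤
        (malleCount k N (wreath ε X.π.range H) B : ℝ) := by
  classical
  have hfkF : Module.Finite k F := Module.Finite.of_restrictScalars_finite ℚ k F
  obtain ⟨eF, hH⟩ := hF
  let φ₀ : F →ₐ[k] AlgebraicClosure k := IsAlgClosed.lift
  let _ : Algebra F (AlgebraicClosure k) := φ₀.toRingHom.toAlgebra
  have htow : IsScalarTower k F (AlgebraicClosure k) :=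
    IsScalarTower.of_algebraMap_eq (fun x => (φ₀.commutes x).symm)
  have hcl : IsAlgClosure F (AlgebraicClosure k) :=
    ⟨inferInstance, Algebra.IsAlgebraic.tower_top (K := k) F⟩
  have hb : 0 < b := Fin.pos (eF φ₀)
  obtain ⟨c, D, H0, hc, hD, h⟩ := rel16_level (Ω := AlgebraicClosure k) hb (by omega) ε H eF hH X hπ
  have hm : 0 < Module.finrank ℚ F := Module.finrank_pos
  obtain ⟨c', hc', h'⟩ := of_levels k (wreath ε X.π.range H) hc hD
    (u := Module.finrank ℚ F * ∑ i, X.I.d i)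
    (v := Module.finrank ℚ F * (2 * ∑ j, X.c j))
    (Nat.mul_pos hm (Nat.mul_pos two_pos X.c_pos)) h
  refine ⟨c', hc', ?_⟩
  have hexp : (((Module.finrank ℚ F * ∑ i, X.I.d i : ℕ) : ℝ) /
      ((Module.finrank ℚ F * (2 * ∑ j, X.c j) : ℕ) : ℝ)) =
      ((∑ i, X.I.d i : ℕ) : ℝ) / ((2 * ∑ j, X.c j : ℕ) : ℝ) := by
    have hm' : ((Module.finrank ℚ F : ℕ) : ℝ) ≠ 0 := by exact_mod_cast hm.ne'
    rw [Nat.cast_mul (Module.finrank ℚ F) (∑ i, X.I.d i),
      Nat.cast_mul (Module.finrank ℚ F) (2 * ∑ j, X.c j), mul_div_mul_left _ _ hm']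
  rw [hexp] at h'
  exact h'

end Pool.Agent.H41.Rel
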