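import Pool.Agent.H13.RZ.PrimCount
import Pool.Agent.H13.RZ.Mult
import Pool.Agent.H13.RZ.LevelIn
import Pool.Agent.H41.Rel.RelMain

/-!
# Project RG phase 2 (MP_a3214d): the relative main theorem with a scalar kernel
-/

set_option autoImplicit false

open MvPolynomial NumberField IsDedekindDomain Pool.Agent.H13.RG Pool.Agent.H13.RZ
  Pool.Agent.H35.AN

namespace Pool.Agent.H41.Rel

/-- from the levels to all bounds, with a small loss -/
theorem relz_levels (k : Type) [Field k] [NumberField k] {N : ℕ}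
    (G : Subgroup (Equiv.Perm (Fin N))) {c C D H0 ε : ℝ} (hc : 0 < c) (hC : 0 < C) (hD : 0 < D)
    {u v : ℕ} (hv : 0 < v)
    (h : ∀ H : ℝ, H0 ≤ H → c * H ^ u ≤
      C * (D * H ^ v) ^ ε * (malleCount k N G (D * H ^ v) : ℝ)) :
    ∃ c' : ℝ, 0 < c' ∧ ∀ᶠ B : ℝ in Filter.atTop,
      c' * B ^ ((u : ℝ) / v - ε) ≤ (malleCount k N G B : ℝ) := by
  have hv0 : (v : ℝ) ≠ 0 := by exact_mod_cast hv.ne'
  refine ⟨c / C * (D ^ ((u : ℝ) / v))⁻¹,
    mul_pos (div_pos hc hC) (inv_pos.mpr (Real.rpow_pos_of_pos hD _)), ?_⟩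
  filter_upwards [Filter.eventually_ge_atTop D,
    Filter.eventually_ge_atTop (D * (max H0 1) ^ v)] with B hB hB2
  have hB0 : 0 < B := hD.trans_le hB
  have hq1 : 1 ≤ B / D := (one_le_div hD).mpr hB
  have hq0 : 0 ≤ B / D := zero_le_one.trans hq1
  have hm : (0 : ℝ) ≤ max H0 1 := zero_le_one.trans (le_max_right _ _)
  have h1 : H0 ≤ (B / D) ^ ((1 : ℝ) / v) := by
    have h5 : (max H0 1) ^ v ≤ B / D := by
      rw [le_div_iff₀ hD]
      linarith
    have h6 : ((max H0 1) ^ v) ^ ((1 : ℝ) / v) = max H0 1 := by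
      rw [← Real.rpow_natCast, ← Real.rpow_mul hm, mul_one_div_cancel hv0, Real.rpow_one]
    calc H0 ≤ max H0 1 := le_max_left _ _
      _ = ((max H0 1) ^ v) ^ ((1 : ℝ) / v) := h6.symm
      _ ≤ (B / D) ^ ((1 : ℝ) / v) :=
          Real.rpow_le_rpow (pow_nonneg hm _) h5 (by positivity)
  have h2 := h _ h1
  have h3 : ((B / D) ^ ((1 : ℝ) / v)) ^ v = B / D := by
    rw [← Real.rpow_natCast, ← Real.rpow_mul hq0, one_div, inv_mul_cancel₀ hv0, Real.rpow_one]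
  have h4 : ((B / D) ^ ((1 : ℝ) / v)) ^ u = (D ^ ((u : ℝ) / v))⁻¹ * B ^ ((u : ℝ) / v) := by
    rw [← Real.rpow_natCast, ← Real.rpow_mul hq0, Real.div_rpow hB0.le hD.le]
    rw [show (1 : ℝ) / v * u = (u : ℝ) / v by ring]
    rw [div_eq_inv_mul]
  rw [h3, h4, mul_div_cancel₀ _ hD.ne'] at h2
  have hBε : 0 < B ^ ε := Real.rpow_pos_of_pos hB0 _
  rw [Real.rpow_sub hB0]
  have h5 : c / C * (D ^ ((u : ℝ) / v))⁻¹ * (B ^ ((u : ℝ) / v) / B ^ ε) =
      c * ((D ^ ((u : ℝ) / v))⁻¹ * B ^ ((u : ℝ) / v)) / (C * B ^ ε) := by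
    field_simp
  rw [h5, div_le_iff₀ (by positivity)]
  calc c * ((D ^ ((u : ℝ) / v))⁻¹ * B ^ ((u : ℝ) / v))
      ≤ C * B ^ ε * (malleCount k N G B : ℝ) := h2
    _ = (malleCount k N G B : ℝ) * (C * B ^ ε) := by ring

section

variable {k F Ω : Type} [Field k] [NumberField k] [Field F] [NumberField F] [Field Ω]
  [Algebra k F] [Algebra k Ω] [Algebra F Ω] [IsScalarTower k F Ω] [IsAlgClosure F Ω]
  {s n b N : ℕ} {G : Type} [Group G] [Fintype G]

/-- the count at level `H`, scalar kernel -/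
theorem relz_level (hs : 2 ≤ s) (hb : 0 < b) (hn : 0 < n) (ε : Fin b × Fin n ≃ Fin N)
    (H : Subgroup (Equiv.Perm (Fin b))) (eF : (F →ₐ[k] Ω) ≃ Fin b)
    (hH : ∀ η : Equiv.Perm (Fin b), η ∈ H ↔
      ∃ σ : Ω ≃ₐ[k] Ω, ∀ φ : F →ₐ[k] Ω, eF (σ.toAlgHom.comp φ) = η (eF φ))
    (X : Core F s n G) (hker : ∀ g, X.π g = 1 → ∃ c : F, ActsBy X g c) {η : ℝ} (hη : 0 < η) :
    ∃ c C D H0 : ℝ, 0 < c ∧ 0 < C ∧ 0 < D ∧ ∀ T : ℝ, H0 ≤ T →
      c * T ^ (Module.finrank ℚ F * ∑ i, X.I.d i) ≤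
        C * (D * T ^ (Module.finrank ℚ F * (2 * ∑ j, X.c j))) ^ η *
        (malleCount k N (wreath ε X.π.range H)
          (D * T ^ (Module.finrank ℚ F * (2 * ∑ j, X.c j))) : ℝ) := by
  classical
  have hac : IsAlgClosed Ω := IsAlgClosure.isAlgClosed F
  have hchar : CharZero Ω := charZero_of_injective_algebraMap (algebraMap F Ω).injective
  have hfkF : Module.Finite k F := Module.Finite.of_restrictScalars_finite ℚ k F
  have hbF : Module.finrank k F = b := by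
    have h1 : Fintype.card (F →ₐ[k] Ω) = Module.finrank k F := AlgHom.card k F Ω
    rw [← h1, Fintype.card_congr eF, Fintype.card_fin]
  have hN : N = b * n := by
    have h1 := Fintype.card_congr ε
    rw [Fintype.card_prod, Fintype.card_fin, Fintype.card_fin, Fintype.card_fin] at h1
    exact h1.symm
  -- the lifts
  have hlift : ∀ i, ∃ t : Ω ≃ₐ[k] Ω, ∀ x : F, t (algebraMap F Ω x) = (eF.symm i) x :=
    fun i => exists_lift k F Ω (eF.symm i)
  choose t ht using hlift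
  have htinj : ∀ i j, (∀ x : F, t i (algebraMap F Ω x) = t j (algebraMap F Ω x)) → i = j := by
    intro i j hij
    apply eF.symm.injective
    apply AlgHom.ext
    intro x
    rw [← ht, ← ht, hij]
  obtain ⟨M₀, α, hM₀, hfull₀⟩ := exists_full_rel t htinj X
  -- the modulus
  obtain ⟨M, hM, hMM, c₁, H₁, hc₁, hH₁, hprim⟩ := prim_count F hs X.I.d X.I.d_pos
    (M₀ * (X.N * Fintype.card G)) (Nat.mul_pos hM₀ (Nat.mul_pos X.N_pos Fintype.card_pos)) α
  have hM₀M : M₀ ∣ M := (dvd_mul_right _ _).trans hMM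
  have hNM : X.N ∣ M := ((dvd_mul_right _ _).trans (dvd_mul_left _ _)).trans hMM
  have hGM : Fintype.card G ∣ M := ((dvd_mul_left _ _).trans (dvd_mul_left _ _)).trans hMM
  have hfull : ∀ u : Fin s → 𝓞 F, (∀ i, (M : 𝓞 F) ∣ u i - α i) →
      ∀ x : Fin s → Ω, X.I.fv (iO F Ω X.N) x = (fun i => algebraMap F Ω (u i : F)) →
        eval₂ (iO F Ω X.N) x (Matrix.of X.W).det ≠ 0 ∧
        ∃ h : (Ω ≃ₐ[F] Ω) →* G, Twisted X h x ∧ ∀ γ : Fin b → G,
          ∃ (σ : Ω ≃ₐ[k] Ω) (τ : Fin b → (Ω ≃ₐ[F] Ω)),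
            (∀ i y, σ (t i y) = t i (τ i y)) ∧ ∀ i, h (τ i) = γ i := by
    intro u hu
    apply hfull₀ u
    intro i
    refine dvd_trans ?_ (hu i)
    obtain ⟨q, hq⟩ := hM₀M
    exact ⟨(q : 𝓞 F), by rw [hq, Nat.cast_mul]⟩
  have hFull : Full Ω X M α := by
    intro u hu x hx
    obtain ⟨hdet, h, hh, hγ⟩ := hfull u hu x hx
    refine ⟨hdet, h, ?_, hh⟩
    intro g
    obtain ⟨_, τ, _, h2⟩ := hγ (fun _ => g)
    exact ⟨τ ⟨0, hb⟩, h2 _⟩
  have hA : ∀ T, {u | u ∈ ParD X.I.d M α T ∧ Prim M u} ⊆ Par X M α T := fun T u hu => hu.1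
  obtain ⟨c, H0, hc, hH0, hlev⟩ := level_in (Ω := Ω) X M hM α hFull
    (fun T => {u | u ∈ ParD X.I.d M α T ∧ Prim M u}) hA hc₁ hprim
  obtain ⟨D, hD, hdisc⟩ := field_disc X hn M α hFull
  obtain ⟨C, hC1, htwist⟩ := twist_count (Ω := Ω) X hn hker hM hNM hGM η hη
  have hC : 0 < C := one_pos.trans_le hC1
  have hm : (0 : ℝ) < ((n.factorial * b : ℕ) : ℝ) := by
    have := Nat.factorial_pos n
    positivity
  refine ⟨c, C * ((n.factorial * b : ℕ) : ℝ), D, H0, hc, by positivity, hD, ?_⟩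
  intro T hT
  have hT1 : 1 ≤ T := hH0.trans hT
  obtain ⟨hfin, hcard⟩ := hlev T hT
  set B : ℝ := D * T ^ (Module.finrank ℚ F * (2 * ∑ j, X.c j)) with hB
  have hB0 : 0 < B := by positivity
  set S : Finset ((Ω ≃ₐ[F] Ω) →* G) := hfin.toFinset with hS
  -- the fields
  have hfield : ∀ h ∈ S, ∃ (K : IntermediateField F Ω) (_ : NumberField K)
      (e : (K →ₐ[F] Ω) ≃ Fin n), Module.finrank F K = n ∧
        (∀ (σ : Ω ≃ₐ[F] Ω) (φ : K →ₐ[F] Ω), e (σ.toAlgHom.comp φ) = X.π (h σ) (e φ)) ∧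
        HasGroup k Ω (K.restrictScalars k) (wreath ε X.π.range H) ∧
        |(NumberField.discr K : ℝ)| ≤ B := by
    intro h hh
    rw [hS, Set.Finite.mem_toFinset] at hh
    obtain ⟨hsurj, u, hu, x, hx, htw⟩ := hh
    obtain ⟨K, hnf, e, h2, h3, h4⟩ := hdisc T hT1 h ⟨hsurj, u, hA T hu, x, hx, htw⟩
    refine ⟨K, hnf, e, h2, h3, ?_, h4⟩
    obtain ⟨hdet, h', hh', hγ⟩ := hfull u (fun i => (hu.1 i).1) x hx
    have heq : h = h' := hom_unique X hsurj htw hh' (rel16_ne_zero X hdet)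
    subst heq
    exact rel16_hasGroup ε H eF hH t ht X.π h hγ K e h3
  -- the homomorphisms to the permutation group
  let f : ((Ω ≃ₐ[F] Ω) →* G) → ((Ω ≃ₐ[F] Ω) →* X.π.range) := fun h => X.π.rangeRestrict.comp h
  have hrange : (X.π.range.subtype).range = X.π.range := Subgroup.range_subtype _
  have h1 := rel16_count (k := k) hbF hN ε H X.π.range.subtype Subtype.val_injective B
    (S.image f) (by
      intro h' hh'
      obtain ⟨h, hh, rfl⟩ := Finset.mem_image.mp hh'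
      obtain ⟨K, hnf, e, h2, h3, h4, h5⟩ := hfield h hh
      refine ⟨K, hnf, e, h2, h3, ?_, h5⟩
      rw [hrange]
      exact h4)
  rw [hrange] at h1
  -- the fibres
  have hfib : ∀ h' ∈ S.image f, (((S.filter (fun h => f h = h')).card : ℕ) : ℝ) ≤ C * B ^ η := by
    intro h' hh'
    obtain ⟨h₀, hh₀, rfl⟩ := Finset.mem_image.mp hh'
    obtain ⟨K, hnf, e, _, h3, _, h5⟩ := hfield h₀ hh₀
    refine (htwist h₀ K e h3 (S.filter (fun h => f h = f h₀))
      (Finset.mem_filter.mpr ⟨hh₀, rfl⟩) ?_).trans ?_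
    · intro h hh
      obtain ⟨hh1, hh2⟩ := Finset.mem_filter.mp hh
      constructor
      · rw [hS, Set.Finite.mem_toFinset] at hh1
        obtain ⟨hsurj, u, hu, x, hx, htw⟩ := hh1
        exact ⟨hsurj, u, hu.2, x, hx, htw⟩
      · intro σ
        have h6 := congrArg (fun q : (Ω ≃ₐ[F] Ω) →* X.π.range => ((q σ : X.π.range) :
          Equiv.Perm (Fin n))) hh2
        exact h6.symm
    · apply mul_le_mul_of_nonneg_left _ hC.le
      exact Real.rpow_le_rpow (abs_nonneg _) h5 hη.le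
  have hsum : (S.card : ℝ) ≤ ((S.image f).card : ℝ) * (C * B ^ η) := by
    rw [Finset.card_eq_sum_card_image f S]
    push_cast
    calc ∑ x ∈ S.image f, (((S.filter (fun h => f h = x)).card : ℕ) : ℝ)
        ≤ ∑ _x ∈ S.image f, C * B ^ η := Finset.sum_le_sum hfib
      _ = ((S.image f).card : ℝ) * (C * B ^ η) := by
          rw [Finset.sum_const, nsmul_eq_mul]
  rw [Set.ncard_eq_toFinset_card _ hfin] at hcard
  have hBη : 0 < B ^ η := Real.rpow_pos_of_pos hB0 _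
  calc c * T ^ (Module.finrank ℚ F * ∑ i, X.I.d i) ≤ (S.card : ℝ) := hcard
    _ ≤ ((S.image f).card : ℝ) * (C * B ^ η) := hsum
    _ ≤ (((n.factorial * b : ℕ) : ℝ) * malleCount k N (wreath ε X.π.range H) B) *
        (C * B ^ η) := mul_le_mul_of_nonneg_right h1 (by positivity)
    _ = C * ((n.factorial * b : ℕ) : ℝ) * B ^ η *
        malleCount k N (wreath ε X.π.range H) B := by ring

end

/-- Phase 2: the relative version, scalar kernel -/
theorem rel_core_mainZ (k F : Type) [Field k] [NumberField k] [Field F] [NumberField F]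
    [Algebra k F] {s n b N : ℕ} (hs : 2 ≤ s) (hn : 2 ≤ n) (ε : Fin b × Fin n ≃ Fin N)
    (H : Subgroup (Equiv.Perm (Fin b))) (hF : HasGroup k (AlgebraicClosure k) F H)
    {G : Type} [Group G] [Fintype G] (X : Core F s n G)
    (hker : ∀ g, X.π g = 1 → ∃ c : F, ActsBy X g c) (δ : ℝ) (hδ : 0 < δ) :
    ∃ c : ℝ, 0 < c ∧ ∀ᶠ B : ℝ in Filter.atTop,
      c * B ^ (((∑ i, X.I.d i : ℕ) : ℝ) / ((2 * ∑ j, X.c j : ℕ) : ℝ) - δ) ≤
        (malleCount k N (wreath ε X.π.range H) B : ℝ) := by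
  classical
  have hfkF : Module.Finite k F := Module.Finite.of_restrictScalars_finite ℚ k F
  obtain ⟨eF, hH⟩ := hF
  let φ₀ : F →ₐ[k] AlgebraicClosure k := IsAlgClosed.lift
  let _ : Algebra F (AlgebraicClosure k) := φ₀.toRingHom.toAlgebra
  have htow : IsScalarTower k F (AlgebraicClosure k) :=
    IsScalarTower.of_algebraMap_eq (fun x => (φ₀.commutes x).symm)
  have hcl : IsAlgClosure F (AlgebraicClosure k) :=
    ⟨inferInstance, Algebra.IsAlgebraic.tower_top (K := k) F⟩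
  have hb : 0 < b := Fin.pos (eF φ₀)
  obtain ⟨c, C, D, H0, hc, hC, hD, h⟩ := relz_level (Ω := AlgebraicClosure k) hs hb
    (two_pos.trans_le hn) ε H eF hH X hker hδ
  have hm : 0 < Module.finrank ℚ F := Module.finrank_pos
  obtain ⟨c', hc', h'⟩ := relz_levels k (wreath ε X.π.range H) hc hC hD
    (u := Module.finrank ℚ F * ∑ i, X.I.d i)
    (v := Module.finrank ℚ F * (2 * ∑ j, X.c j))
    (Nat.mul_pos hm (Nat.mul_pos two_pos X.c_pos)) h
  refine ⟨c', hc', ?_⟩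
  have hexp : (((Module.finrank ℚ F * ∑ i, X.I.d i : ℕ) : ℝ) /
      ((Module.finrank ℚ F * (2 * ∑ j, X.c j) : ℕ) : ℝ)) =
      ((∑ i, X.I.d i : ℕ) : ℝ) / ((2 * ∑ j, X.c j : ℕ) : ℝ) := by
    have hm' : ((Module.finrank ℚ F : ℕ) : ℝ) ≠ 0 := by exact_mod_cast hm.ne'
    rw [Nat.cast_mul (Module.finrank ℚ F) (∑ i, X.I.d i),
      Nat.cast_mul (Module.finrank ℚ F) (2 * ∑ j, X.c j), mul_div_mul_left _ _ hm']
  rw [hexp] at h'
  exact h'

end Pool.Agent.H41.Rel
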